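import Mathlib
import Pool.Agent.Lib.MP_ab1b6f_lc.Core

/-!
# The longest increasing path: chains of cores

A set of indices is of level `j` if it has at most `n + 1 - yy j` elements and is not
`tl b K h j`-independent. The numbers `yy j` are `0, 1, 2, 4, 8, ...`.
-/

namespace Pool.Agent.Lib.MP_ab1b6f_lcH

open Pool.Agent.Lib.MP_ab1b6f_lc

/-- The codimension of the cores of level `j`: `0, 1, 2, 4, 8, ...`. -/
def yy : ℕ → ℕ
  | 0 => 0
  | j + 1 => 2 ^ j

/-- The threshold `θ_j = b ^ (2 h j) / b ^ K` of level `j`. -/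
noncomputable def tl (b : ℝ) (K h j : ℕ) : ℝ := b ^ (2 * h * j) / b ^ K

/-- The threshold `θ'_j = b ^ (2 h j + h) / b ^ K`, between `θ_j` and `θ_(j+1)`. -/
noncomputable def tl' (b : ℝ) (K h j : ℕ) : ℝ := b ^ (2 * h * j + h) / b ^ K

/-- `Ch A A' N y S0 e U`: the set `U` is obtained from `S0` in `e` steps; in each step a set `O` with
at most `N - y` elements and the property `A` is added, such that the intersection of `O` with the set
already reached does not have the property `A'`. (`A`: not `θ`-independent, `A'`: not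
`θ'`-independent, `θ < θ'`.) -/
inductive Ch {ι : Type*} [DecidableEq ι] (A A' : Finset ι → Prop) (N y : ℕ) (S0 : Finset ι) :
    ℕ → Finset ι → Prop
  | zero : Ch A A' N y S0 0 S0
  | succ {e : ℕ} {U O : Finset ι} (h : Ch A A' N y S0 e U) (hO : O.card + y ≤ N) (hbad : A O)
      (hgood : ¬ A' (O ∩ U)) : Ch A A' N y S0 (e + 1) (U ∪ O)

theorem Ch.subset {ι : Type*} [DecidableEq ι] {A A' : Finset ι → Prop} {N y : ℕ} {S0 : Finset ι}
    {e : ℕ} {U : Finset ι} (h : Ch A A' N y S0 e U) : S0 ⊆ U := by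
  induction h with
  | zero => exact Finset.Subset.refl _
  | succ h hO hbad hgood ih => exact ih.trans Finset.subset_union_left

/-- A chain of length at least `e'` contains a chain of length `e'`. -/
theorem Ch.initial {ι : Type*} [DecidableEq ι] {A A' : Finset ι → Prop} {N y : ℕ} {S0 : Finset ι}
    {e : ℕ} {U : Finset ι} (h : Ch A A' N y S0 e U) {e' : ℕ} (he : e' ≤ e) :
    ∃ U' ⊆ U, Ch A A' N y S0 e' U' := by
  induction h with
  | zero => exact ⟨S0, Finset.Subset.refl _, by rw [Nat.le_zero.1 he]; exact Ch.zero⟩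
  | @succ e U O h hO hbad hgood ih =>
    rcases Nat.lt_or_ge e' (e + 1) with h1 | h1
    · obtain ⟨U', hU', hc⟩ := ih (by omega)
      exact ⟨U', hU'.trans Finset.subset_union_left, hc⟩
    · obtain rfl : e' = e + 1 := by omega
      exact ⟨U ∪ O, Finset.Subset.refl _, Ch.succ h hO hbad hgood⟩

/-- The bound for the length of the chains of level `j`. -/
def Lq (q M j : ℕ) : ℕ := 2 * q / ((M + 1) * 2 ^ j)

variable {ι V : Type*} [DecidableEq ι] [NormedAddCommGroup V] [NormedSpace ℝ V]

/-- The deterministic conditions used for runs of ill-conditioned vertices: `rnd` is the set of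
random indices, `fx` the set of fixed ones. -/
structure LevEv (w : ι → V) (rnd fx : Finset ι) (n q M K h : ℕ) (b R : ℝ) : Prop where
  norm_le : ∀ i ∈ rnd, ‖w i‖ ≤ R
  glob : ∀ O : Finset ι, O.card + 2 ^ M ≤ n + 1 → Ind w O (tl b K h (M + 1))
  lev : ∀ S0 : Finset ι, S0.card ≤ n + 2 → fx ⊆ S0 → ∀ j ≤ M, ∀ (e : ℕ) (U : Finset ι),
    Ch (fun O => ¬ Ind w O (tl b K h j)) (fun O => ¬ Ind w O (tl' b K h j)) (n + 1) (yy j) S0 e U →
    (U \ S0).card ≤ 48 * q → e ≤ Lq q M j

theorem yy_le {j M : ℕ} (h : j ≤ M + 1) : yy j ≤ 2 ^ M := by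
  cases j with
  | zero => exact Nat.zero_le _
  | succ j => exact Nat.pow_le_pow_right (by norm_num) (by omega)

end Pool.Agent.Lib.MP_ab1b6f_lcH
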