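import Mathlib
import Pool.Agent.Lib.MP_ab1b6f_lcH.HD

/-!
# A chain of cores is a sequence of reachable sets  (leaf ChR)
-/

namespace Pool.Agent.Lib.MP_ab1b6f_lcH

open Pool.Agent.Lib.MP_ab1b6f_lc

variable {ι V : Type*} [DecidableEq ι] [NormedAddCommGroup V] [NormedSpace ℝ V]

/-- Induction on the chain, `k = |U \ S0|`. Step `U → U ∪ O`, `O ∩ U` is `θ'`-independent, `O` is not
`θ`-independent (`θ = tl b K h j`, `θ' = tl' b K h j = b ^ h θ ≤ 1` because `2 h j + h ≤ K`): `Reach.extend` with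
`C = O`, `θO = θ'`, `θC = θ`, `n := n - y`, gives `pA` with `b ^ h * pA ≤ (2R) ^ |O \ U|`. The new elements
`O \ U` are outside `S0 ⊇ fx`, so they are in `rnd` (`hrf`). For `hQ` : `|U| ≤ n + 2 + k` and, because `O` is
not `tl b K h (M + 1)`-independent (`tl b K h j ≤ tl b K h (M + 1)`, `Ind.mono`), `|O| ≥ n + 2 - 2 ^ M` by
`hglob`; `|O \ U| ≤ D - k`; so `|U \ O| = |U| - |O| + |O \ U| ≤ D + 2 ^ M ≤ Q`. -/
theorem ch_reach {w : ι → V} {rnd fx S0 : Finset ι} {n M K h j D Q : ℕ} {b R : ℝ} (hb : 1 ≤ b)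
    (hR : 1 ≤ R) (hrf : ∀ i, i ∉ fx → i ∈ rnd) (hfx : fx ⊆ S0) (hS0 : S0.card ≤ n + 2)
    (hw : ∀ i ∈ rnd, ‖w i‖ ≤ R)
    (hglob : ∀ O : Finset ι, O.card + 2 ^ M ≤ n + 1 → Ind w O (tl b K h (M + 1)))
    (hj : j ≤ M) (hK : 2 * h * (M + 1) ≤ K) (hy : yy j ≤ n) (hQ : D + 2 ^ M ≤ Q) {e : ℕ}
    {U : Finset ι}
    (hch : Ch (fun O => ¬ Ind w O (tl b K h j)) (fun O => ¬ Ind w O (tl' b K h j)) (n + 1) (yy j)
      S0 e U) (hU : (U \ S0).card ≤ D) :
    ∃ (k : ℕ) (p : ℝ), k ≤ D ∧ Reach w rnd S0 Q (n - yy j) k U p ∧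
      p * (b ^ h) ^ e ≤ (2 * R) ^ k := by
  have hb0 : 0 < b := lt_of_lt_of_le zero_lt_one hb
  have hθpos : 0 < tl b K h j := by
    unfold tl
    positivity
  have hθ'0 : 0 ≤ tl' b K h j := by
    unfold tl'
    positivity
  have hθ' : tl' b K h j = b ^ h * tl b K h j := by
    unfold tl' tl
    rw [pow_add]
    ring
  have hθ1 : tl' b K h j ≤ 1 := by
    unfold tl'
    rw [div_le_one (by positivity)]
    refine pow_le_pow_right₀ hb (le_trans ?_ hK)
    have h1 : 2 * h * j + h ≤ 2 * h * M + 2 * h := by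
      have h2 : 2 * h * j ≤ 2 * h * M := Nat.mul_le_mul_left _ hj
      omega
    calc 2 * h * j + h ≤ 2 * h * M + 2 * h := h1
      _ = 2 * h * (M + 1) := by ring
  have hθm : tl b K h j ≤ tl b K h (M + 1) := by
    unfold tl
    refine div_le_div_of_nonneg_right (pow_le_pow_right₀ hb ?_) (by positivity)
    exact Nat.mul_le_mul_left _ (by omega)
  have key : ∀ (e : ℕ) (U : Finset ι),
      Ch (fun O => ¬ Ind w O (tl b K h j)) (fun O => ¬ Ind w O (tl' b K h j)) (n + 1) (yy j) S0 e U →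
      (U \ S0).card ≤ D → ∃ p : ℝ, Reach w rnd S0 Q (n - yy j) (U \ S0).card U p ∧
        p * (b ^ h) ^ e ≤ (2 * R) ^ (U \ S0).card := by
    intro e U hc
    induction hc with
    | zero =>
      intro _
      refine ⟨1, ?_, ?_⟩
      · rw [Finset.sdiff_self, Finset.card_empty]
        exact Reach.zero
      · rw [Finset.sdiff_self, Finset.card_empty, pow_zero, pow_zero, one_mul]
    | @succ e U O hc hO hbad hgood ih =>
      intro hcard
      have hS0U : S0 ⊆ U := hc.subset
      have hcU : (U \ S0).card ≤ D :=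
        (Finset.card_le_card (Finset.sdiff_subset_sdiff Finset.subset_union_left (Finset.Subset.refl _))).trans hcard
      obtain ⟨p, hp, hpe⟩ := ih hcU
      have hO2 : n + 2 ≤ O.card + 2 ^ M := by
        by_contra hcon
        exact hbad ((hglob O (by omega)).mono hθm)
      have c1 : (U \ O).card + O.card = (U ∪ O).card := Finset.card_sdiff_add_card U O
      have c2 : ((U ∪ O) \ S0).card + S0.card = (U ∪ O).card :=
        Finset.card_sdiff_add_card_eq_card (hS0U.trans Finset.subset_union_left)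
      have c3 : (O \ U).card + U.card = (U ∪ O).card := by
        rw [Finset.card_sdiff_add_card, Finset.union_comm]
      have c4 : (U \ S0).card + S0.card = U.card := Finset.card_sdiff_add_card_eq_card hS0U
      obtain ⟨pA, hpA, hr, hle⟩ := hp.extend (C := O) (θO := tl' b K h j) (θC := tl b K h j) (R := R)
        (fun i hi => by
          rw [Finset.mem_sdiff] at hi
          exact hrf i fun hif => hi.2 (hS0U (hfx hif)))
        hR hw (by omega) (by omega) (not_not.mp hgood) hθ'0 hθ1 hbad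
      have hk : (U \ S0).card + (O \ U).card = ((U ∪ O) \ S0).card := by omega
      have h1 : b ^ h * pA ≤ (2 * R) ^ (O \ U).card := by
        rw [hθ'] at hle
        have h2 : tl b K h j * (b ^ h * pA) ≤ tl b K h j * (2 * R) ^ (O \ U).card := by
          calc tl b K h j * (b ^ h * pA) = b ^ h * tl b K h j * pA := by ring
            _ ≤ tl b K h j * (2 * R) ^ (O \ U).card := hle
        exact le_of_mul_le_mul_left h2 hθpos
      refine ⟨p * pA, ?_, ?_⟩
      · rw [← hk]
        exact hr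
      · rw [← hk, pow_add (2 * R)]
        have h3 : 0 ≤ b ^ h * pA := by positivity
        calc p * pA * (b ^ h) ^ (e + 1) = (p * (b ^ h) ^ e) * (b ^ h * pA) := by ring
          _ ≤ (2 * R) ^ (U \ S0).card * (2 * R) ^ (O \ U).card :=
            mul_le_mul hpe h1 h3 (by positivity)
  obtain ⟨p, hp, hpe⟩ := key e U hch hU
  exact ⟨(U \ S0).card, p, hU, hp, hpe⟩

end Pool.Agent.Lib.MP_ab1b6f_lcH
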