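import Mathlib
import Pool.Agent.Lib.MP_ab1b6f_lc.Count

/-!
# Counting the bases of a run, and the steps of a path  (leaf Count)
-/

namespace Pool.Agent.Lib.MP_ab1b6f_lcH

open Pool.Agent.Lib.MP_ab1b6f_lc

/-- Distinct sets `B 0, ..., B L` of `n` indices of `Fin m` with `|B t \ B 0| ≤ X`: the set
`B t = (B 0 \ E) ∪ E'` is determined by `E = B 0 \ B t` (at most `X` elements, because
`|B 0 \ B t| = |B t \ B 0|`; a subset of `B 0`, at most `(n + 1) ^ X` choices) and `E' = B t \ B 0` (at most
`(m + 1) ^ X` choices); `card_small_subsets`. -/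
theorem run_count {m n X L : ℕ} (B : ℕ → Finset (Fin m)) (hcard : ∀ t ≤ L, (B t).card = n)
    (hinj : ∀ s ≤ L, ∀ t ≤ L, B s = B t → s = t) (hX : ∀ t ≤ L, (B t \ B 0).card ≤ X) :
    L + 1 ≤ (n + 1) ^ X * (m + 1) ^ X := by
  classical
  set P : Finset (Finset (Fin m)) := (B 0).powerset.filter (fun E => E.card ≤ X) with hP
  set Q : Finset (Finset (Fin m)) := (Finset.univ : Finset (Fin m)).powerset.filter (fun E => E.card ≤ X)
    with hQ
  have hPc : P.card ≤ (n + 1) ^ X := by
    have h := card_small_subsets (B 0) X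
    rwa [hcard 0 (Nat.zero_le _)] at h
  have hQc : Q.card ≤ (m + 1) ^ X := by
    have h := card_small_subsets (Finset.univ : Finset (Fin m)) X
    rwa [Finset.card_univ, Fintype.card_fin] at h
  have hmain : (Finset.range (L + 1)).card ≤ (P ×ˢ Q).card := by
    refine Finset.card_le_card_of_injOn (fun t => (B 0 \ B t, B t \ B 0)) ?_ ?_
    · intro t ht
      rw [Finset.mem_coe, Finset.mem_range] at ht
      have htL : t ≤ L := by omega
      have h1 : (B 0 \ B t).card = (B t \ B 0).card :=
        Finset.card_sdiff_comm ((hcard 0 (Nat.zero_le _)).trans (hcard t htL).symm)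
      rw [Finset.mem_coe, Finset.mem_product, hP, hQ, Finset.mem_filter, Finset.mem_filter,
        Finset.mem_powerset, Finset.mem_powerset]
      exact ⟨⟨Finset.sdiff_subset, h1.trans_le (hX t htL)⟩, Finset.subset_univ _, hX t htL⟩
    · intro s hs t ht hst
      rw [Finset.mem_coe, Finset.mem_range] at hs ht
      simp only [Prod.mk.injEq] at hst
      refine hinj s (by omega) t (by omega) ?_
      ext x
      have h1 := Finset.ext_iff.1 hst.1 x
      have h2 := Finset.ext_iff.1 hst.2 x
      rw [Finset.mem_sdiff, Finset.mem_sdiff] at h1 h2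
      by_cases h0 : x ∈ B 0 <;> by_cases h3 : x ∈ B s <;> by_cases h4 : x ∈ B t <;>
        simp [h0, h3, h4] at h1 h2 ⊢
  rw [Finset.card_range, Finset.card_product] at hmain
  exact hmain.trans (Nat.mul_le_mul hPc hQc)

/-- The length of a path. `good` marks indices. The values `f i` increase; a good index `i < l`
has `f (i + 1) - f i ≥ γ` and `|f i| ≤ B`, so there are at most `2 B / γ + 1` good indices `i < l` (for the
good indices `i_1 < ... < i_k < l`: `(k - 1) γ ≤ f (i_k) - f (i_1) ≤ 2 B`). Between two good indices,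
before the first and after the last there are at most `L0` bad indices `≤ l`. So
`l ≤ k + (k + 1) L0 ≤ (2 B / γ + 2) (L0 + 1)`. One way: induction on `l` for the statement
`l ≤ (k + 1) (L0 + 1)` where `k` is the number of good `i < l` (if all indices `≤ l` from the last good one on
are bad use `hrun`; remove the last block). -/
theorem path_count (l L0 : ℕ) (f : ℕ → ℝ) (good : ℕ → Prop) {γ B : ℝ} (hγ : 0 < γ) (hB : 0 ≤ B)
    (hf : ∀ i < l, f i < f (i + 1))
    (hgood : ∀ i < l, good i → γ ≤ f (i + 1) - f i ∧ |f i| ≤ B)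
    (hrun : ∀ s r, s + r ≤ l → (∀ i, s ≤ i → i ≤ s + r → ¬ good i) → r + 1 ≤ L0) :
    (l : ℝ) ≤ (2 * B / γ + 2) * (L0 + 1) := by
  classical
  obtain ⟨k, hk⟩ : ∃ k : ℕ → ℕ, ∀ j, k j = ((Finset.range j).filter good).card := ⟨_, fun _ => rfl⟩
  have hk0 : k 0 = 0 := by
    rw [hk, Finset.range_zero, Finset.filter_empty, Finset.card_empty]
  have hkg : ∀ j, good j → k (j + 1) = k j + 1 := by
    intro j hj
    rw [hk, hk, Finset.range_add_one, Finset.filter_insert, if_pos hj, Finset.card_insert_of_notMem]
    intro h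
    exact absurd (Finset.mem_range.1 (Finset.mem_filter.1 h).1) (lt_irrefl _)
  have hkb : ∀ j, ¬ good j → k (j + 1) = k j := by
    intro j hj
    rw [hk, hk, Finset.range_add_one, Finset.filter_insert, if_neg hj]
  have h1 : ∀ j ≤ l, (k j = 0 ∨ -B + (k j : ℝ) * γ ≤ f j) ∧ (k j : ℝ) * γ ≤ 2 * B + γ := by
    intro j
    induction j with
    | zero =>
      intro _
      refine ⟨Or.inl hk0, ?_⟩
      rw [hk0, Nat.cast_zero, zero_mul]
      linarith
    | succ j ih =>
      intro hj
      obtain ⟨ih1, ih2⟩ := ih (by omega)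
      by_cases hg : good j
      · obtain ⟨h2, h3⟩ := hgood j (by omega) hg
        have h4 := abs_le.1 h3
        have h5 : -B + (k j : ℝ) * γ ≤ f j := by
          rcases ih1 with h6 | h6
          · rw [h6, Nat.cast_zero, zero_mul]
            linarith
          · exact h6
        rw [hkg j hg, Nat.cast_add, Nat.cast_one, add_mul, one_mul]
        exact ⟨Or.inr (by linarith), by linarith⟩
      · rw [hkb j hg]
        refine ⟨?_, ih2⟩
        rcases ih1 with h6 | h6
        · exact Or.inl h6
        · exact Or.inr (h6.trans (hf j (by omega)).le)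
  have h2 : ∀ j ≤ l, ∃ r ≤ j, (∀ i, j - r ≤ i → i < j → ¬ good i) ∧ j ≤ k j * (L0 + 1) + r := by
    intro j
    induction j with
    | zero => exact fun _ => ⟨0, le_rfl, fun i _ hi => absurd hi (Nat.not_lt_zero i), Nat.zero_le _⟩
    | succ j ih =>
      intro hj
      obtain ⟨r, hr1, hr2, hr3⟩ := ih (by omega)
      by_cases hg : good j
      · refine ⟨0, Nat.zero_le _, fun i hi1 hi2 => absurd hi2 (by omega), ?_⟩
        have h3 : r ≤ L0 := by
          rcases Nat.eq_zero_or_pos r with h | h
          · omega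
          · have h4 := hrun (j - r) (r - 1) (by omega) fun i hi1 hi2 => hr2 i hi1 (by omega)
            omega
        rw [hkg j hg, add_mul, one_mul]
        omega
      · refine ⟨r + 1, by omega, fun i hi1 hi2 => ?_, ?_⟩
        · rcases Nat.lt_or_ge i j with h | h
          · exact hr2 i (by omega) h
          · have h5 : i = j := by omega
            rw [h5]
            exact hg
        · rw [hkb j hg]
          omega
  obtain ⟨r, hr1, hr2, hr3⟩ := h2 l le_rfl
  have h3 : r ≤ L0 := by
    rcases Nat.eq_zero_or_pos r with h | h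
    · omega
    · have h4 := hrun (l - r) (r - 1) (by omega) fun i hi1 hi2 => hr2 i hi1 (by omega)
      omega
  have h4 : l ≤ (k l + 1) * (L0 + 1) := by
    rw [add_mul, one_mul]
    omega
  have h5 : (k l : ℝ) ≤ 2 * B / γ + 1 := by
    have h6 := (h1 l le_rfl).2
    have h7 : 2 * B / γ + 1 = (2 * B + γ) / γ := by
      rw [add_div, div_self hγ.ne']
    rw [h7, le_div_iff₀ hγ]
    exact h6
  have h6 : (l : ℝ) ≤ ((k l : ℝ) + 1) * (L0 + 1) := by exact_mod_cast h4
  refine h6.trans (mul_le_mul_of_nonneg_right (by linarith) (by positivity))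

end Pool.Agent.Lib.MP_ab1b6f_lcH
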