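import Mathlib
import Pool.Agent.Lib.MP_ab1b6f_lc.Geo
import Pool.Agent.Lib.MP_ab1b6f_lc.EdgeA

/-!
# Absolute progress at a well-conditioned vertex  (leaf Geo)
-/

namespace Pool.Agent.Lib.MP_ab1b6f_lcH

open Pool.Agent.Lib.MP_ab1b6f_lc

variable {m n : ℕ}

/-- A well-conditioned vertex: every set of `n + 1` indices near the set of active constraints (at
most one active constraint is missing and at most one other constraint is added, besides the two
fixed indices) is `η`-independent. -/
def GoodH (D : Data m n) (c : Pt n) (η : ℝ) (x : Pt n) : Prop :=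
  x ∈ (poly D).extremePoints ℝ ∧
    ∀ S : Finset (Idx m), S.card = n + 1 → (up (act D x) \ S).card ≤ 1 →
      (S \ (up (act D x) ∪ fixed m)).card ≤ 1 → Ind (fam D c) S η

private theorem Geo_inf_mem : (inf : Idx m) ∈ fixed m := mem_fixed.2 ⟨0, rfl⟩

private theorem Geo_obj_mem : (obj : Idx m) ∈ fixed m := mem_fixed.2 ⟨1, rfl⟩

/-- `S = insert inf (up (act D x))` and `vertex_norm`: `η ‖x‖ ≤ η ‖ext1 x (-1)‖ ≤ 1`; Cauchy-Schwarz. -/
theorem GoodH.abs_le {D : Data m n} {c : Pt n} {η : ℝ} {x : Pt n} (hη : 0 < η)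
    (hS : IsSimple D) (hx : GoodH D c η x) : |inner ℝ c x| ≤ ‖c‖ / η := by
  have hcard : (act D x).card = n := hS x hx.1
  have h1 : η * ‖ext1 x (-1)‖ ≤ 1 := by
    refine vertex_norm (c := c) hη hcard (hx.2 _ ?_ ?_ ?_)
    · rw [Finset.card_insert_of_notMem inr_notMem_up, card_up, hcard]
    · have : up (act D x) \ insert (inf : Idx m) (up (act D x)) = ∅ :=
        Finset.sdiff_eq_empty_iff_subset.2 (Finset.subset_insert _ _)
      rw [this, Finset.card_empty]
      exact Nat.zero_le _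
    · have : insert (inf : Idx m) (up (act D x)) \ (up (act D x) ∪ fixed m) = ∅ := by
        rw [Finset.sdiff_eq_empty_iff_subset, Finset.insert_subset_iff]
        exact ⟨Finset.mem_union_right _ Geo_inf_mem, Finset.subset_union_left⟩
      rw [this, Finset.card_empty]
      exact Nat.zero_le _
  have h2 : ‖x‖ ≤ ‖ext1 x (-1)‖ := by
    have h := norm_sq_ext1 x (-1)
    have h3 : ‖x‖ ^ 2 ≤ ‖ext1 x (-1)‖ ^ 2 := by
      rw [h]
      nlinarith
    exact (pow_le_pow_iff_left₀ (norm_nonneg _) (norm_nonneg _) (by norm_num)).1 h3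
  rw [le_div_iff₀ hη]
  calc |inner ℝ c x| * η ≤ (‖c‖ * ‖x‖) * η :=
        mul_le_mul_of_nonneg_right (abs_real_inner_le_norm c x) hη.le
    _ = ‖c‖ * (η * ‖x‖) := by ring
    _ ≤ ‖c‖ * (η * ‖ext1 x (-1)‖) := by gcongr
    _ ≤ ‖c‖ * 1 := by gcongr
    _ = ‖c‖ := mul_one _

/-- `w = x + t • d j` by `Dirs.nbr_dir` (`d` from `IsSimple.exists_dirs`),
`act D w = insert i ((act D x).erase j)` by `Dirs.nbr_act`. `t ≥ η` by `step_len` with
`S = insert (inl i) (up (act D x))`. `|⟨c, d j⟩| ≥ η ‖c‖ ‖d j‖` as in `obj_dir` (`normal_lower` with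
`a = obj`, the set `insert obj (insert inf (up ((act D x).erase j)))` is `η`-independent by `GoodH`), and
`‖d j‖ ≥ 1 / R` by `norm_dir_ge`. So `⟨c, w - x⟩ = t ⟨c, d j⟩ ≥ η * (η ‖c‖ / R)`. -/
theorem GoodH.gain {D : Data m n} {c : Pt n} {η R : ℝ} {x w : Pt n} (hη : 0 < η) (hR : 0 < R)
    (hc : c ≠ 0) (hRn : ∀ i, ‖fam D c (Sum.inl i)‖ ≤ R) (hS : IsSimple D) (hx : GoodH D c η x)
    (hw : BetterNbr (poly D) c x w) : η ^ 2 * ‖c‖ / R ≤ inner ℝ c (w - x) := by
  have hcard : (act D x).card = n := hS x hx.1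
  obtain ⟨d, hd⟩ := hS.exists_dirs hx.1
  obtain ⟨j, hj, t, ht, hwt, hin⟩ := hd.nbr_dir hw
  obtain ⟨i, hi, hact⟩ := hd.nbr_act hS hj ht hwt hw
  have hn : 0 < n := by
    rw [← hcard]
    exact Finset.card_pos.2 ⟨j, hj⟩
  have htη : η ≤ t := by
    refine step_len (c := c) hη hcard hd hj hi ht hwt hact (hx.2 _ ?_ ?_ ?_)
    · rw [Finset.card_insert_of_notMem (by rw [inl_mem_up]; exact hi), card_up, hcard]
    · have : up (act D x) \ insert (Sum.inl i : Idx m) (up (act D x)) = ∅ :=
        Finset.sdiff_eq_empty_iff_subset.2 (Finset.subset_insert _ _)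
      rw [this, Finset.card_empty]
      exact Nat.zero_le _
    · have : insert (Sum.inl i : Idx m) (up (act D x)) \ (up (act D x) ∪ fixed m) ⊆
          {Sum.inl i} := by
        intro k hk
        rw [Finset.mem_sdiff, Finset.mem_insert, Finset.mem_union] at hk
        rw [Finset.mem_singleton]
        rcases hk.1 with h | h
        · exact h
        · exact absurd (Or.inl h) hk.2
      exact (Finset.card_le_card this).trans (by rw [Finset.card_singleton])
  have hnot : (obj : Idx m) ∉ insert (inf : Idx m) (up ((act D x).erase j)) := by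
    rw [Finset.mem_insert]
    rintro (h' | h')
    · simp [obj, inf] at h'
    · exact inr_notMem_up h'
  have hcardS : (insert (inf : Idx m) (up ((act D x).erase j))).card = n := by
    rw [Finset.card_insert_of_notMem inr_notMem_up, card_up, Finset.card_erase_of_mem hj, hcard]
    omega
  have hX : ∀ k ∈ insert (inf : Idx m) (up ((act D x).erase j)),
      inner ℝ (fam D c k) (ext1 (d j) 0) = 0 := by
    intro k hk
    rw [Finset.mem_insert] at hk
    rcases hk with rfl | hk
    · rw [inner_fam_inf]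
    · obtain ⟨l, hl, rfl⟩ := mem_up.1 hk
      rw [Finset.mem_erase] at hl
      rw [inner_fam_inl, hd.off j hj l hl.2 hl.1]
      ring
  have hIobj : Ind (fam D c) (insert obj (insert (inf : Idx m) (up ((act D x).erase j)))) η := by
    refine hx.2 _ ?_ ?_ ?_
    · rw [Finset.card_insert_of_notMem hnot, hcardS]
    · have : up (act D x) \ insert obj (insert (inf : Idx m) (up ((act D x).erase j))) ⊆
          {Sum.inl j} := by
        intro k hk
        rw [Finset.mem_sdiff] at hk
        obtain ⟨l, hl, rfl⟩ := mem_up.1 hk.1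
        rw [Finset.mem_singleton]
        by_contra hne
        apply hk.2
        refine Finset.mem_insert_of_mem (Finset.mem_insert_of_mem ?_)
        rw [inl_mem_up, Finset.mem_erase]
        exact ⟨fun h => hne (by rw [h]), hl⟩
      exact (Finset.card_le_card this).trans (by rw [Finset.card_singleton])
    · have : insert obj (insert (inf : Idx m) (up ((act D x).erase j))) \
          (up (act D x) ∪ fixed m) = ∅ := by
        rw [Finset.sdiff_eq_empty_iff_subset, Finset.insert_subset_iff, Finset.insert_subset_iff]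
        refine ⟨Finset.mem_union_right _ Geo_obj_mem, Finset.mem_union_right _ Geo_inf_mem, ?_⟩
        intro k hk
        obtain ⟨l, hl, rfl⟩ := mem_up.1 hk
        exact Finset.mem_union_left _ (inl_mem_up.2 (Finset.mem_of_mem_erase hl))
      rw [this, Finset.card_empty]
      exact Nat.zero_le _
  have h1 := normal_lower (w := fam D c) (S := insert (inf : Idx m) (up ((act D x).erase j)))
    (a := obj) (η := η) (X := ext1 (d j) 0) hnot hcardS hη hIobj hX
  have hnz : ‖ext1 (d j) 0‖ = ‖d j‖ := by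
    have h := norm_sq_ext1 (d j) 0
    rw [zero_pow (by norm_num), add_zero] at h
    exact (pow_left_inj₀ (norm_nonneg _) (norm_nonneg _) (by norm_num)).1 h
  rw [inner_fam_obj, hnz, abs_mul, abs_inv, abs_norm] at h1
  have hc' : 0 < ‖c‖ := norm_pos_iff.2 hc
  have h2 : η * ‖c‖ * ‖d j‖ ≤ inner ℝ c (d j) := by
    calc η * ‖c‖ * ‖d j‖ = ‖c‖ * (η * ‖d j‖) := by ring
      _ ≤ ‖c‖ * ((‖c‖)⁻¹ * |inner ℝ c (d j)|) := mul_le_mul_of_nonneg_left h1 hc'.le
      _ = |inner ℝ c (d j)| := by rw [← mul_assoc, mul_inv_cancel₀ hc'.ne', one_mul]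
      _ = inner ℝ c (d j) := abs_of_pos hin
  have h3 : 1 ≤ R * ‖d j‖ := norm_dir_ge (c := c) hRn hd hj
  have h4 : inner ℝ c (w - x) = t * inner ℝ c (d j) := by
    rw [hwt, add_sub_cancel_left, inner_smul_right]
  rw [h4, div_le_iff₀ hR]
  calc η ^ 2 * ‖c‖ = η * (η * ‖c‖ * 1) := by ring
    _ ≤ η * (η * ‖c‖ * (R * ‖d j‖)) := by gcongr
    _ = η * ((η * ‖c‖ * ‖d j‖) * R) := by ring
    _ ≤ t * (inner ℝ c (d j) * R) := by gcongr
    _ = t * inner ℝ c (d j) * R := by ring

end Pool.Agent.Lib.MP_ab1b6f_lcH
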