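import Mathlib
import Pool.Agent.Lib.MP_ab1b6f_lcH.HD

/-!
# The parameters  (leaf Par: arithmetic in `ℕ`)
-/

namespace Pool.Agent.Lib.MP_ab1b6f_lcH

open Pool.Agent.Lib.MP_ab1b6f_lc

/-- The conditions on the parameters: `q` is about `√n`, `2 ^ M` about `q`. -/
structure ParH (m n q M : ℕ) (b : ℝ) : Prop where
  hn : 1 ≤ n
  hq : 1 ≤ q
  hnq : n ≤ q ^ 2
  hqn : q ≤ n
  hM1 : q ≤ 2 ^ M
  hM2 : 2 ^ M ≤ 2 * q
  hb3 : 3 ≤ b
  hbn : (n : ℝ) + 2 ≤ b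
  hbm : (m : ℝ) + 2 ≤ b

/-- The exponent `h` of the gap between two thresholds. -/
def hh (q M : ℕ) : ℕ := 26000 * (M + 1) * q

/-- The exponent of the threshold of a well-conditioned vertex. -/
def KK (q M : ℕ) : ℕ := 4 * hh q M * (M + 2)

/-- `6 * 2 ^ j * (2 q / ((M + 1) 2 ^ j)) ≤ 12 q / (M + 1)` and `6 * 2 ^ M ≤ 12 q`. -/
theorem Lq_sum {q M : ℕ} (hM2 : 2 ^ M ≤ 2 * q) :
    ∑ j ∈ Finset.range (M + 1), 6 * 2 ^ j * Lq q M j + 6 * 2 ^ M ≤ 24 * q := by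
  have h1 : ∀ j ∈ Finset.range (M + 1), 6 * 2 ^ j * Lq q M j ≤ 12 * q / (M + 1) := by
    intro j _
    unfold Lq
    rw [Nat.le_div_iff_mul_le (Nat.succ_pos M)]
    have h2 : 2 * q / ((M + 1) * 2 ^ j) * ((M + 1) * 2 ^ j) ≤ 2 * q := Nat.div_mul_le_self _ _
    calc 6 * 2 ^ j * (2 * q / ((M + 1) * 2 ^ j)) * (M + 1)
        = 6 * (2 * q / ((M + 1) * 2 ^ j) * ((M + 1) * 2 ^ j)) := by ring
      _ ≤ 6 * (2 * q) := Nat.mul_le_mul_left _ h2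
      _ = 12 * q := by ring
  have h3 := Finset.sum_le_card_nsmul (Finset.range (M + 1)) _ _ h1
  rw [Finset.card_range, smul_eq_mul] at h3
  have h4 : (M + 1) * (12 * q / (M + 1)) ≤ 12 * q := Nat.mul_div_le _ _
  omega

/-- `2 q < (Lq + 1) (M + 1) 2 ^ j` (`Nat.lt_mul_div_succ` or `Nat.lt_succ_mul_div...`) and
`2 ^ j ≤ 2 (yy j + 1)`. -/
theorem Lq_mul (q M j : ℕ) : q ≤ (Lq q M j + 1) * (yy j + 1) * (M + 1) := by
  have h1 : 2 * q < (Lq q M j + 1) * ((M + 1) * 2 ^ j) := by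
    unfold Lq
    have h0 : 0 < (M + 1) * 2 ^ j := by positivity
    have := Nat.lt_mul_div_succ (2 * q) h0
    rw [mul_comm (2 * q / ((M + 1) * 2 ^ j) + 1)]
    exact this
  have h2 : 2 ^ j ≤ 2 * (yy j + 1) := by
    cases j with
    | zero => simp [yy]
    | succ j =>
      simp only [yy]
      rw [pow_succ]
      omega
  have h3 : (Lq q M j + 1) * ((M + 1) * 2 ^ j) ≤
      (Lq q M j + 1) * ((M + 1) * (2 * (yy j + 1))) :=
    Nat.mul_le_mul_left _ (Nat.mul_le_mul_left _ h2)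
  have h4 : (Lq q M j + 1) * ((M + 1) * (2 * (yy j + 1))) =
      2 * ((Lq q M j + 1) * (yy j + 1) * (M + 1)) := by ring
  omega

/-- `2 * yy j ≤ 2 ^ j ≤ 2 ^ M ≤ 2 q` for `1 ≤ j ≤ M`. -/
theorem yy_le_q {q M j : ℕ} (hM2 : 2 ^ M ≤ 2 * q) (hj : j ≤ M) : yy j ≤ q := by
  cases j with
  | zero => simp [yy]
  | succ j =>
    simp only [yy]
    have h1 : 2 ^ (j + 1) ≤ 2 ^ M := Nat.pow_le_pow_right (by norm_num) hj
    rw [pow_succ] at h1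
    omega

theorem M_le {q M : ℕ} (hM2 : 2 ^ M ≤ 2 * q) : M + 1 ≤ 2 * q := by
  have h := Nat.lt_two_pow_self (n := M)
  omega

end Pool.Agent.Lib.MP_ab1b6f_lcH
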