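import Mathlib
import Pool.Agent.Lib.MP_ab1b6f_lcH.HPar

/-!
# Numerical estimates for the final bound  (leaf NumF)
-/

namespace Pool.Agent.Lib.MP_ab1b6f_lcH

open Pool.Agent.Lib.MP_ab1b6f_lc

/-- `2 * (C / η) / (η ^ 2 * C / R) = 2 R / η ^ 3 = 2 b ^ (4 + 3 K)` for `C = ‖c‖ > 0`, `η = 1 / b ^ K`, `R = b ^ 4`;
`(n + 1) ^ X (m + 1) ^ X ≤ b ^ (48 q)` (`X = 24 q`, `n + 1, m + 1 ≤ b`). So the left side is at most
`(2 b ^ (4 + 3K) + 2) (b ^ (48 q) + 1) ≤ b ^ (6 + 3 K) * b ^ (48 q + 1) ≤ b ^ (4 K)` as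
`K = KK q M ≥ 208000 q`. -/
theorem final_num {m n q M : ℕ} {b C : ℝ} (h : ParH m n q M b) (hC : 0 < C) :
    (2 * (C / tl b (KK q M) (hh q M) 0) / (tl b (KK q M) (hh q M) 0 ^ 2 * C / b ^ 4) + 2) *
      ((((n + 1) ^ (24 * q) * (m + 1) ^ (24 * q) : ℕ) : ℝ) + 1) ≤ b ^ (4 * KK q M) := by
  have hb3 := h.hb3
  have hb0 : (0 : ℝ) < b := by linarith
  have hb1 : (1 : ℝ) ≤ b := by linarith
  have hK : 48 * q + 7 ≤ KK q M := by
    unfold KK hh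
    have h1 := h.hq
    have h2 : 1 * q * 1 ≤ (M + 1) * q * (M + 2) :=
      Nat.mul_le_mul (Nat.mul_le_mul_right q (by omega)) (by omega)
    nlinarith
  generalize KK q M = K at hK ⊢
  have e1 : tl b K (hh q M) 0 = 1 / b ^ K := by
    unfold tl
    rw [Nat.mul_zero, pow_zero]
  have hbK : (0 : ℝ) < b ^ K := pow_pos hb0 K
  have e2 : 2 * (C / tl b K (hh q M) 0) / (tl b K (hh q M) 0 ^ 2 * C / b ^ 4) = 2 * b ^ (3 * K + 4) := by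
    rw [e1]
    have e3 : b ^ (3 * K + 4) = b ^ K * b ^ K * b ^ K * b ^ 4 := by
      rw [← pow_add, ← pow_add, ← pow_add]
      congr 1
      ring
    rw [e3]
    field_simp
  rw [e2]
  have h3 : (1 : ℝ) ≤ b ^ (3 * K + 4) := one_le_pow₀ hb1
  have h4 : 2 * b ^ (3 * K + 4) + 2 ≤ b ^ (3 * K + 6) := by
    have e4 : b ^ (3 * K + 6) = b ^ (3 * K + 4) * b ^ 2 := by
      rw [← pow_add]
    have h5 : (9 : ℝ) ≤ b ^ 2 := by nlinarith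
    rw [e4]
    nlinarith
  have h6 : ((((n + 1) ^ (24 * q) * (m + 1) ^ (24 * q) : ℕ) : ℝ)) ≤ b ^ (48 * q) := by
    push_cast
    have h7 : ((n : ℝ) + 1) ^ (24 * q) ≤ b ^ (24 * q) :=
      pow_le_pow_left₀ (by positivity) (by linarith [h.hbn]) _
    have h8 : ((m : ℝ) + 1) ^ (24 * q) ≤ b ^ (24 * q) :=
      pow_le_pow_left₀ (by positivity) (by linarith [h.hbm]) _
    have e5 : b ^ (48 * q) = b ^ (24 * q) * b ^ (24 * q) := by
      rw [← pow_add]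
      congr 1
      ring
    rw [e5]
    exact mul_le_mul h7 h8 (by positivity) (by positivity)
  have h9 : ((((n + 1) ^ (24 * q) * (m + 1) ^ (24 * q) : ℕ) : ℝ) + 1) ≤ b ^ (48 * q + 1) := by
    have h10 : (1 : ℝ) ≤ b ^ (48 * q) := one_le_pow₀ hb1
    rw [pow_succ]
    nlinarith
  calc (2 * b ^ (3 * K + 4) + 2) * ((((n + 1) ^ (24 * q) * (m + 1) ^ (24 * q) : ℕ) : ℝ) + 1)
      ≤ b ^ (3 * K + 6) * b ^ (48 * q + 1) := mul_le_mul h4 h9 (by positivity) (by positivity)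
    _ = b ^ (3 * K + 6 + (48 * q + 1)) := by rw [← pow_add]
    _ ≤ b ^ (4 * K) := pow_le_pow_right₀ hb1 (by omega)

/-- Choice of `q` and `M`: `q` is the least number with `n ≤ q ^ 2`, `M` the least number with
`q ≤ 2 ^ M` (for `M ≥ 1`: `2 ^ (M - 1) < q`). `(q - 1) ^ 2 < n` gives `q ≤ 2 √n` and `q ≤ n`;
`2 ^ M ≤ 2 q ≤ 4 √n` gives `M ≤ 2 + log n / (2 log 2) ≤ 2 (1 + log n)` (`Real.log 2 ≥ 1/2`). -/
theorem exists_qM (n : ℕ) (hn : 1 ≤ n) : ∃ q M : ℕ, 1 ≤ q ∧ n ≤ q ^ 2 ∧ q ≤ n ∧ q ≤ 2 ^ M ∧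
    2 ^ M ≤ 2 * q ∧ (q : ℝ) ≤ 2 * √(n : ℝ) ∧ (M : ℝ) ≤ 2 * (1 + Real.log n) := by
  obtain ⟨r, hr⟩ : ∃ r, r = Nat.sqrt (n - 1) := ⟨_, rfl⟩
  have h1 : r * r ≤ n - 1 := by rw [hr]; exact Nat.sqrt_le (n - 1)
  have h2 : n - 1 < (r + 1) * (r + 1) := by
    rw [hr]
    exact Nat.lt_succ_sqrt (n - 1)
  have hn0 : (1 : ℝ) ≤ n := by exact_mod_cast hn
  have hs1 : (1 : ℝ) ≤ √(n : ℝ) := by
    rw [Real.one_le_sqrt]
    exact hn0
  have h2M : 2 ^ Nat.clog 2 (r + 1) ≤ 2 * (r + 1) := by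
    rcases Nat.eq_zero_or_pos r with h0 | h0
    · rw [h0]
      norm_num
    · have h3 : 2 ^ (Nat.clog 2 (r + 1)).pred < r + 1 := Nat.pow_pred_clog_lt_self (by norm_num) (by omega)
      have h4 : 0 < Nat.clog 2 (r + 1) := Nat.clog_pos (by norm_num) (by omega)
      have h5 : 2 ^ Nat.clog 2 (r + 1) = 2 ^ (Nat.clog 2 (r + 1)).pred * 2 := by
        rw [← pow_succ]
        congr 1
        rw [Nat.pred_eq_sub_one]
        omega
      omega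
  have hq2 : ((r + 1 : ℕ) : ℝ) ≤ 2 * √(n : ℝ) := by
    have h3 : (r : ℝ) ≤ √(n : ℝ) := by
      apply Real.le_sqrt_of_sq_le
      have h4 : r * r ≤ n := by omega
      have h5 : ((r * r : ℕ) : ℝ) ≤ n := by exact_mod_cast h4
      push_cast at h5
      nlinarith
    push_cast
    linarith
  refine ⟨r + 1, Nat.clog 2 (r + 1), by omega, ?_, ?_, Nat.le_pow_clog (by norm_num) _, h2M, hq2, ?_⟩
  · rw [sq]
    omega
  · rcases Nat.eq_zero_or_pos r with h0 | h0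
    · omega
    · have h3 : r * 1 ≤ r * r := Nat.mul_le_mul_left r h0
      omega
  · have hlog2 : (1 : ℝ) / 2 ≤ Real.log 2 := by
      have := Real.log_two_gt_d9
      linarith
    have hlogn : 0 ≤ Real.log n := Real.log_nonneg hn0
    have h3 : ((2 : ℝ) ^ Nat.clog 2 (r + 1)) ≤ 4 * √(n : ℝ) := by
      have h4 : ((2 ^ Nat.clog 2 (r + 1) : ℕ) : ℝ) ≤ ((2 * (r + 1) : ℕ) : ℝ) := by exact_mod_cast h2M
      push_cast at h4 hq2
      linarith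
    have h5 : Real.log ((2 : ℝ) ^ Nat.clog 2 (r + 1)) ≤ Real.log (4 * √(n : ℝ)) :=
      Real.log_le_log (by positivity) h3
    rw [Real.log_pow, Real.log_mul (by norm_num) (by positivity), Real.log_sqrt (by positivity)] at h5
    have h6 : Real.log 4 = 2 * Real.log 2 := by
      have h7 : (4 : ℝ) = 2 ^ 2 := by norm_num
      rw [h7, Real.log_pow]
      norm_num
    rw [h6] at h5
    have h8 : (0 : ℝ) ≤ (Nat.clog 2 (r + 1) : ℝ) := Nat.cast_nonneg _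
    by_contra hcon
    push Not at hcon
    nlinarith

/-- `4 KK + 1 = 416000 (M + 1) (M + 2) q + 1`, `M + 1 ≤ 3 (1 + log n)`, `M + 2 ≤ 4 (1 + log n)`,
`q ≤ 2 √n` and `1 ≤ √n (1 + log n) ^ 2` (`n ≥ 1`, `log n ≥ 0`). -/
theorem KK_le {n q M : ℕ} (hn : 1 ≤ n) (hq : (q : ℝ) ≤ 2 * √(n : ℝ))
    (hM : (M : ℝ) ≤ 2 * (1 + Real.log n)) :
    ((4 * KK q M + 1 : ℕ) : ℝ) ≤ 10000000 * √(n : ℝ) * (1 + Real.log n) ^ 2 := by
  have hn0 : (1 : ℝ) ≤ n := by exact_mod_cast hn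
  have hs1 : (1 : ℝ) ≤ √(n : ℝ) := by
    rw [Real.one_le_sqrt]
    exact hn0
  have hlogn : 0 ≤ Real.log n := Real.log_nonneg hn0
  unfold KK hh
  push_cast
  obtain ⟨l, hl⟩ : ∃ l, l = 1 + Real.log n := ⟨_, rfl⟩
  obtain ⟨s, hs⟩ : ∃ s, s = √(n : ℝ) := ⟨_, rfl⟩
  rw [← hl] at hM ⊢
  rw [← hs] at hq hs1 ⊢
  have hl1 : 1 ≤ l := by linarith
  have hM0 : (0 : ℝ) ≤ M := Nat.cast_nonneg M
  have hq0 : (0 : ℝ) ≤ q := Nat.cast_nonneg q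
  have h1 : ((M : ℝ) + 1) * ((M : ℝ) + 2) ≤ (3 * l) * (4 * l) :=
    mul_le_mul (by linarith) (by linarith) (by linarith) (by linarith)
  have h2 : ((M : ℝ) + 1) * ((M : ℝ) + 2) * q ≤ (3 * l) * (4 * l) * (2 * s) :=
    mul_le_mul h1 hq hq0 (by positivity)
  have h3 : 1 ≤ s * l ^ 2 := by nlinarith [mul_le_mul hl1 hl1 (by norm_num) (by linarith)]
  nlinarith

end Pool.Agent.Lib.MP_ab1b6f_lcH
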