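import Mathlib
import Pool.Agent.Lib.MP_ab1b6f_lc.Det

/-!
# Rules and paths  (leaf Path)
-/

open scoped ENNReal

namespace Pool.Agent.Lib.MP_ab1b6f_lcH

open Pool.Agent.Lib.MP_ab1b6f_lc

variable {m n : ℕ}

/-- `x 0, x 1, ..., x l` is a path of vertices of `P` along improving edges. -/
def IncPath (P : Set (Pt n)) (c : Pt n) (l : ℕ) (x : ℕ → Pt n) : Prop :=
  ∀ i < l, BetterNbr P c (x i) (x (i + 1))

private def Path_cons (v : Pt n) (x : ℕ → Pt n) : ℕ → Pt n
  | 0 => v
  | i + 1 => x i

private theorem Path_cons_inc {P : Set (Pt n)} {c : Pt n} {l : ℕ} {x : ℕ → Pt n} {v : Pt n}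
    (hx : IncPath P c l x) (hv : BetterNbr P c v (x 0)) : IncPath P c (l + 1) (Path_cons v x) := by
  intro i hi
  cases i with
  | zero => exact hv
  | succ i => exact hx i (by omega)

private theorem Path_steps {P : Set (Pt n)} {c : Pt n} {p : Pt n → Pt n → ℝ≥0∞}
    (hmass : ∀ v, ∑' w, p v w ≤ 1) (hnbr : ∀ v w, p v w ≠ 0 → BetterNbr P c v w) (k : ℕ) :
    ∀ (v : Pt n) (H : ℝ≥0∞), (∀ (l : ℕ) (x : ℕ → Pt n), IncPath P c l x → x 0 = v → (l : ℝ≥0∞) ≤ H) →
      steps p k v ≤ H := by
  induction k with
  | zero =>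
    intro v H _
    exact zero_le
  | succ k ih =>
    intro v H hH
    have h1 : ∀ w, p v w * (1 + steps p k w) ≤ p v w * H := by
      intro w
      by_cases hw : p v w = 0
      · rw [hw, zero_mul, zero_mul]
      · have hb := hnbr v w hw
        have h2 : ∀ (l : ℕ) (x : ℕ → Pt n), IncPath P c l x → x 0 = w → (l : ℝ≥0∞) + 1 ≤ H := by
          intro l x hx hxw
          have h3 := hH (l + 1) (Path_cons v x) (Path_cons_inc hx (by rw [hxw]; exact hb)) rfl
          rw [Nat.cast_add, Nat.cast_one] at h3
          exact h3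
        have h4 : (1 : ℝ≥0∞) ≤ H := by
          have h5 := h2 0 (fun _ => w) (fun i hi => absurd hi (Nat.not_lt_zero i)) rfl
          rw [Nat.cast_zero, zero_add] at h5
          exact h5
        have h6 := ih w (H - 1) fun l x hx hxw =>
          ENNReal.le_sub_of_add_le_right ENNReal.one_ne_top (h2 l x hx hxw)
        refine mul_le_mul_right ?_ _
        calc 1 + steps p k w ≤ 1 + (H - 1) := add_le_add_right h6 1
          _ = H := add_tsub_cancel_of_le h4
    show ∑' w, p v w * (1 + steps p k w) ≤ H
    calc ∑' w, p v w * (1 + steps p k w) ≤ ∑' w, p v w * H := ENNReal.tsum_le_tsum h1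
      _ = (∑' w, p v w) * H := ENNReal.tsum_mul_right
      _ ≤ 1 * H := mul_le_mul_left (hmass v) H
      _ = H := one_mul H

/-- If all increasing paths have at most `H` steps then the expected number of steps of every rule is
at most `H`. Let `ht v` be the supremum over all increasing paths with `x 0 = v` of their lengths (in
`ℝ≥0∞`, at most `H`). By induction on `k`: `steps p k v ≤ ht v` for all `v`: if `p v w ≠ 0` then `w` is an
improving neighbour of `v` and `1 + ht w ≤ ht v` (put `v` in front of a path from `w`), so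
`∑' w, p v w * (1 + steps p k w) ≤ ∑' w, p v w * ht v ≤ ht v`. -/
theorem pathLen_le_of_path {P : Set (Pt n)} {c : Pt n} {p : Pt n → Pt n → ℝ≥0∞} {H : ℝ≥0∞}
    (hmass : ∀ v, ∑' w, p v w ≤ 1) (hnbr : ∀ v w, p v w ≠ 0 → BetterNbr P c v w)
    (hH : ∀ (l : ℕ) (x : ℕ → Pt n), IncPath P c l x → (l : ℝ≥0∞) ≤ H) (v : Pt n) :
    pathLen p v ≤ H := by
  exact iSup_le fun k => Path_steps hmass hnbr k v H fun l x hx _ => hH l x hx

/-- The vertices of an increasing path are distinct (the values of `c` increase), and there are at most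
`m ^ n` vertices (`ext_finite`); a path with `l ≥ 1` steps has `l + 1` vertices. -/
theorem path_trivial {D : Data m n} {c : Pt n} {l : ℕ} {x : ℕ → Pt n}
    (hx : IncPath (poly D) c l x) : l ≤ m ^ n := by
  classical
  obtain ⟨hfin, hcard⟩ := ext_finite D
  have h1 : ∀ i < l, inner ℝ c (x i) < inner ℝ c (x (i + 1)) := by
    intro i hi
    have h2 := (hx i hi).2.2.2.2
    rw [inner_sub_right] at h2
    linarith
  have h2 : ∀ d i, i + d + 1 ≤ l → inner ℝ c (x i) < inner ℝ c (x (i + d + 1)) := by
    intro d
    induction d with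
    | zero =>
      intro i hi
      exact h1 i (by omega)
    | succ d ih =>
      intro i hi
      exact (ih i (by omega)).trans (h1 (i + d + 1) (by omega))
  have h3 : Set.InjOn x (Finset.range l : Set ℕ) := by
    intro i hi j hj hij
    rw [Finset.mem_coe, Finset.mem_range] at hi hj
    rcases lt_trichotomy i j with h | h | h
    · have h4 := h2 (j - i - 1) i (by omega)
      rw [show i + (j - i - 1) + 1 = j by omega, hij] at h4
      exact absurd h4 (lt_irrefl _)
    · exact h
    · have h4 := h2 (i - j - 1) j (by omega)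
      rw [show j + (i - j - 1) + 1 = i by omega, hij] at h4
      exact absurd h4 (lt_irrefl _)
  have h4 : ((Finset.range l).image x).card = l := by
    rw [Finset.card_image_of_injOn h3, Finset.card_range]
  have h5 : (Finset.range l).image x ⊆ hfin.toFinset := by
    intro y hy
    obtain ⟨i, hi, rfl⟩ := Finset.mem_image.1 hy
    rw [Set.Finite.mem_toFinset]
    exact (hx i (Finset.mem_range.1 hi)).2.1
  have h6 := Finset.card_le_card h5
  rw [h4, ← Set.ncard_eq_toFinset_card _ hfin] at h6
  exact h6.trans hcard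

end Pool.Agent.Lib.MP_ab1b6f_lcH
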