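import Mathlib
import Pool.Agent.Lib.MP_ab1b6f_lcH.HD

/-!
# The travel lemma  (leaf Travel)

Notation: level `j` of a time `t`: some `O ⊆ S t` has `|O| + yy j ≤ N` and `A j O`. Every time has
level `0`. A run on `(a, b]` is of type `< i` if no time `a < t ≤ b` has a level `j` with `i ≤ j ≤ M`.

Claim `(i)`, `i = 0, ..., M + 1`, by induction on `i`, and for fixed `i` by strong induction on `b - a`:
let `V, e, U` be such that
`Inv β`: `S0 ⊆ V`, `Ch (A j) (A' j) N (yy j) S0 (e j) (U j)` and `U j ⊆ V` for `j ≤ M`,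
`|V \ S0| ≤ ∑_{j ≤ M} 6 * 2 ^ j * e j + β`, `|V \ S0| ≤ X`.
If `β + ov i ≤ 6 * 2 ^ M` (`ov 0 = 0`, `ov (i + 1) = 6 * 2 ^ i`), `I a ⊆ V` and the run on `(a, b]` is of
type `< i` then there are `V' ⊇ V`, `e'`, `U'` with `Inv (β + ov i)`, `I b ⊆ V'`, and `e' j = e j`,
`U' j = U j` for `j ≥ i`.

`i = 0`: all times have level `0` so `a = b`. Step to `i + 1` (type `< i + 1`, `i ≤ M`): let `τ` be the last
time in `(a, b]` such that some `O ⊆ S τ ∩ V` has `|O| + yy i ≤ N` and `A' i O` (`τ = a` if there is
none). In the first case `A (i + 1) O`, so `N < |O| + yy (i + 1)` (type `< i + 1` for `i < M`, `hglob` for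
`i = M`), hence `|S τ \ V| ≤ N - |O| < yy (i + 1)` and `|I τ \ V| ≤ yy (i + 1) = 2 ^ i`. Put
`V1 = V ∪ I τ`. If no time in `(τ, b]` has level `i`, apply Claim `(i)` to `(τ, b]` and `V1` with
`β1 = β + 2 ^ i` (`2 ^ i + ov i ≤ 6 * 2 ^ i`). Otherwise let `τ'` be the first one; Claim `(i)` for
`(τ, τ' - 1]` gives `V2`; let `V3 = V2 ∪ I τ' ∪ S τ'`, `|V3 \ V2| ≤ 2` (`|I τ' \ I (τ' - 1)| ≤ 1`,
`|S τ' \ (I τ' ∪ F)| ≤ 1`, `F ⊆ S0`). The set `O ⊆ S τ'` of level `i` extends the chain of level `i`,
which is still `U i ⊆ V`: `¬ A' i (O ∩ U i)` because `O ∩ V ⊆ S τ' ∩ V`, `|O ∩ V| + yy i ≤ N` and `τ' > τ`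
(monotonicity of `A'`). So `e i` grows by one and the sum by `6 * 2 ^ i ≥ 2 ^ i + ov i + 2`: `Inv β` holds
for `V3`. Then apply Claim `(i + 1)` to `(τ', b]` (shorter).

Sizes: every new set `V1`, `V3` (and the result) has `|V \ S0| ≤ X + 2 ^ M + 2 ≤ 2 X`, so `hlev` gives
`e j ≤ L j` for all its chains, and `|V \ S0| ≤ ∑ 6 * 2 ^ j * e j + (overhead ≤ 6 * 2 ^ M) ≤ X` by `hL`.
At the end take `a = 0`, `V = S0`, `e = 0`, `U = S0`, `β = 0`, `i = M + 1`.
-/

namespace Pool.Agent.Lib.MP_ab1b6f_lcH

open Pool.Agent.Lib.MP_ab1b6f_lc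

/-- the overhead of the claim `(i)` -/
private def Travel_ov : ℕ → ℕ
  | 0 => 0
  | i + 1 => 6 * 2 ^ i

private theorem Travel_ov_le (i : ℕ) : Travel_ov i ≤ 3 * 2 ^ i := by
  cases i with
  | zero => simp [Travel_ov]
  | succ i => simp only [Travel_ov, pow_succ]; omega

/-- the invariant -/
private structure Travel_Inv {ι : Type*} [DecidableEq ι] (A A' : ℕ → Finset ι → Prop) (N M X : ℕ)
    (S0 : Finset ι) (β : ℕ) (V : Finset ι) (e : ℕ → ℕ) (U : ℕ → Finset ι) : Prop where
  sub : S0 ⊆ V
  ch : ∀ j ≤ M, Ch (A j) (A' j) N (yy j) S0 (e j) (U j)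
  Usub : ∀ j ≤ M, U j ⊆ V
  bd : (V \ S0).card ≤ ∑ j ∈ Finset.range (M + 1), 6 * 2 ^ j * e j + β
  le : (V \ S0).card ≤ X

private theorem Travel_card {ι : Type*} [DecidableEq ι] {S0 V W : Finset ι} :
    ((V ∪ W) \ S0).card ≤ (V \ S0).card + (W \ V).card := by
  have h : (V ∪ W) \ S0 ⊆ (V \ S0) ∪ (W \ V) := by
    intro x hx
    simp only [Finset.mem_sdiff, Finset.mem_union] at hx ⊢
    tauto
  exact (Finset.card_le_card h).trans (Finset.card_union_le _ _)

theorem travel {ι : Type*} [DecidableEq ι] (A A' : ℕ → Finset ι → Prop) (N M X : ℕ)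
    (hmono : ∀ j (O O' : Finset ι), O ⊆ O' → A' j O → A' j O')
    (hA'A : ∀ j O, A' j O → A (j + 1) O)
    (S0 F : Finset ι) (I S : ℕ → Finset ι) (T : ℕ)
    (hF : F ⊆ S0) (hI0 : I 0 ⊆ S0)
    (hScard : ∀ t ≤ T, (S t).card = N)
    (hS : ∀ t ≤ T, A 0 (S t))
    (hIS : ∀ t ≤ T, (I t \ S t).card ≤ 1)
    (hSI : ∀ t ≤ T, (S t \ (I t ∪ F)).card ≤ 1)
    (hstep : ∀ t < T, (I (t + 1) \ I t).card ≤ 1)
    (hglob : ∀ t ≤ T, ∀ O ⊆ S t, O.card + 2 ^ M ≤ N → ¬ A (M + 1) O)
    (L : ℕ → ℕ)
    (hlev : ∀ j ≤ M, ∀ (e : ℕ) (U : Finset ι), Ch (A j) (A' j) N (yy j) S0 e U →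
      (U \ S0).card ≤ 2 * X → e ≤ L j)
    (hX : 2 ^ M + 2 ≤ X)
    (hL : ∑ j ∈ Finset.range (M + 1), 6 * 2 ^ j * L j + 6 * 2 ^ M ≤ X) :
    ∀ t ≤ T, (I t \ S0).card ≤ X := by
  classical
  -- the size of a known set
  have hsize : ∀ (V : Finset ι) (e : ℕ → ℕ) (U : ℕ → Finset ι) (β : ℕ),
      (∀ j ≤ M, Ch (A j) (A' j) N (yy j) S0 (e j) (U j)) → (∀ j ≤ M, U j ⊆ V) →
      (V \ S0).card ≤ ∑ j ∈ Finset.range (M + 1), 6 * 2 ^ j * e j + β → β ≤ 6 * 2 ^ M →
      (V \ S0).card ≤ 2 * X → (V \ S0).card ≤ X := by
    intro V e U β hch hU hbd hβ h2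
    have h1 : ∑ j ∈ Finset.range (M + 1), 6 * 2 ^ j * e j ≤
        ∑ j ∈ Finset.range (M + 1), 6 * 2 ^ j * L j := by
      refine Finset.sum_le_sum fun j hj => ?_
      have hj' : j ≤ M := Nat.lt_succ_iff.1 (Finset.mem_range.1 hj)
      refine Nat.mul_le_mul_left _ (hlev j hj' (e j) (U j) (hch j hj') ?_)
      exact (Finset.card_le_card (Finset.sdiff_subset_sdiff (hU j hj')
        (Finset.Subset.refl _))).trans h2
    omega
  set lv : ℕ → ℕ → Prop := fun t j => ∃ O ⊆ S t, O.card + yy j ≤ N ∧ A j O with hlv
  have claim : ∀ i ≤ M + 1, ∀ k a b : ℕ, b = a + k → b ≤ T → ∀ (β : ℕ) (V : Finset ι)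
      (e : ℕ → ℕ) (U : ℕ → Finset ι), β + Travel_ov i ≤ 6 * 2 ^ M →
      Travel_Inv A A' N M X S0 β V e U → I a ⊆ V →
      (∀ t, a < t → t ≤ b → ∀ j, i ≤ j → j ≤ M → ¬ lv t j) →
      ∃ (V' : Finset ι) (e' : ℕ → ℕ) (U' : ℕ → Finset ι), V ⊆ V' ∧
        Travel_Inv A A' N M X S0 (β + Travel_ov i) V' e' U' ∧ I b ⊆ V' ∧
        ∀ j, i ≤ j → e' j = e j ∧ U' j = U j := by
    intro i
    induction i with
    | zero =>
      intro _ k a b hb hbT β V e U hβ hinv hIa htype
      rcases Nat.eq_zero_or_pos k with hk | hk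
      · subst hk
        rw [Nat.add_zero] at hb
        subst hb
        exact ⟨V, e, U, Finset.Subset.refl _, hinv, hIa, fun j _ => ⟨rfl, rfl⟩⟩
      · exfalso
        refine htype b (by omega) le_rfl 0 le_rfl (Nat.zero_le _) ⟨S b, Finset.Subset.refl _, ?_, hS b hbT⟩
        rw [hScard b hbT]
        simp [yy]
    | succ i ih =>
      intro hiM
      have hi : i ≤ M := by omega
      have ih' := ih (by omega)
      intro k
      induction k using Nat.strong_induction_on with
      | _ k ihk =>
        intro a b hb hbT β V e U hβ hinv hIa htype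
        have hov : Travel_ov (i + 1) = 6 * 2 ^ i := rfl
        have hov' := Travel_ov_le i
        have h2i : 1 ≤ 2 ^ i := Nat.one_le_two_pow
        have h2iM : 2 ^ i ≤ 2 ^ M := Nat.pow_le_pow_right (by norm_num) hi
        set own : ℕ → Prop := fun t => ∃ O ⊆ S t ∩ V, O.card + yy i ≤ N ∧ A' i O with hown
        -- the last owned time
        obtain ⟨τ, haτ, hτb, hIτ, hτlast⟩ : ∃ τ, a ≤ τ ∧ τ ≤ b ∧ (I τ \ V).card ≤ 2 ^ i ∧
            ∀ t, τ < t → t ≤ b → ¬ own t := by
          by_cases hex : ∃ t, a < t ∧ t ≤ b ∧ own t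
          · obtain ⟨t0, ht0a, ht0b, ht0⟩ := hex
            have hmax := Finset.exists_max_image
              ((Finset.range (b + 1)).filter fun t => a < t ∧ own t) id
              ⟨t0, by simp only [Finset.mem_filter, Finset.mem_range]; exact ⟨by omega, ht0a, ht0⟩⟩
            obtain ⟨τ, hτ, hτmax⟩ := hmax
            simp only [Finset.mem_filter, Finset.mem_range] at hτ hτmax
            refine ⟨τ, hτ.2.1.le, by omega, ?_, ?_⟩
            · have hτT : τ ≤ T := by omega
              obtain ⟨O, hO, hOc, hOA⟩ := hτ.2.2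
              have hOS : O ⊆ S τ := hO.trans Finset.inter_subset_left
              have hA1 : A (i + 1) O := hA'A i O hOA
              have hlt : N < O.card + 2 ^ i := by
                by_contra hge
                push Not at hge
                rcases Nat.lt_or_ge i M with h1 | h1
                · exact htype τ hτ.2.1 (by omega) (i + 1) le_rfl h1 ⟨O, hOS, hge, hA1⟩
                · obtain rfl : i = M := by omega
                  exact hglob τ hτT O hOS hge hA1
              have hc1 : (S τ \ V).card ≤ (S τ \ O).card :=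
                Finset.card_le_card (Finset.sdiff_subset_sdiff (Finset.Subset.refl _)
                  (hO.trans Finset.inter_subset_right))
              have hc2 := Finset.card_sdiff_add_card_eq_card hOS
              rw [hScard τ hτT] at hc2
              have hc3 : I τ \ V ⊆ (S τ \ V) ∪ (I τ \ S τ) := by
                intro x hx
                simp only [Finset.mem_sdiff, Finset.mem_union] at hx ⊢
                tauto
              have hc4 := (Finset.card_le_card hc3).trans (Finset.card_union_le _ _)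
              have hc5 := hIS τ hτT
              omega
            · intro t ht1 ht2 ht3
              have := hτmax t ⟨by omega, by omega, ht3⟩
              simp only [id] at this
              omega
          · refine ⟨a, le_rfl, by omega, ?_, fun t h1 h2 h3 => hex ⟨t, h1, h2, h3⟩⟩
            rw [Finset.sdiff_eq_empty_iff_subset.2 hIa]
            simp
        have hτT : τ ≤ T := by omega
        -- the first enlargement
        have hV1 : Travel_Inv A A' N M X S0 (β + 2 ^ i) (V ∪ I τ) e U := by
          have hc := Travel_card (S0 := S0) (V := V) (W := I τ)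
          have hb1 := hinv.bd
          have hb2 := hinv.le
          have hbd : ((V ∪ I τ) \ S0).card ≤
              ∑ j ∈ Finset.range (M + 1), 6 * 2 ^ j * e j + (β + 2 ^ i) := by omega
          refine ⟨hinv.sub.trans Finset.subset_union_left, hinv.ch,
            fun j hj => (hinv.Usub j hj).trans Finset.subset_union_left, hbd, ?_⟩
          exact hsize _ e U _ hinv.ch
            (fun j hj => (hinv.Usub j hj).trans Finset.subset_union_left) hbd (by omega) (by omega)
        by_cases hex : ∃ t, τ < t ∧ t ≤ b ∧ lv t i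
        · -- the first time of level i
          have hfind := Nat.find_spec hex
          have hfmin := fun t => Nat.find_min (H := hex) (m := t)
          set τ' := Nat.find hex with hτ'
          obtain ⟨hf1, hf2, hf3⟩ := hfind
          obtain ⟨V2, e2, U2, hVV2, hinv2, hI2, hkeep2⟩ := ih' (τ' - 1 - τ) τ (τ' - 1) (by omega)
            (by omega) (β + 2 ^ i) (V ∪ I τ) e U (by omega) hV1 Finset.subset_union_right
            (fun t ht1 ht2 j hj1 hj2 hl => by
              rcases Nat.lt_or_ge i j with h1 | h1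
              · exact htype t (by omega) (by omega) j h1 hj2 hl
              · obtain rfl : j = i := by omega
                exact hfmin t (by omega) ⟨ht1, by omega, hl⟩)
          have hτ'T : τ' ≤ T := by omega
          obtain ⟨O, hOS, hOc, hOA⟩ := hf3
          have hVV2' : V ⊆ V2 := Finset.subset_union_left.trans hVV2
          obtain ⟨he2, hU2⟩ := hkeep2 i le_rfl
          have hnot : ¬ A' i (O ∩ U2 i) := by
            intro hA
            rw [hU2] at hA
            refine hτlast τ' hf1 hf2 ⟨O ∩ V, Finset.inter_subset_inter hOS (Finset.Subset.refl _),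
              ?_, hmono i _ _ (Finset.inter_subset_inter (Finset.Subset.refl _)
                (hinv.Usub i hi)) hA⟩
            have := Finset.card_le_card (Finset.inter_subset_left : O ∩ V ⊆ O)
            omega
          -- the second enlargement
          have hcI : (I τ' \ V2).card ≤ 1 := by
            have h1 := hstep (τ' - 1) (by omega)
            rw [Nat.sub_add_cancel (by omega)] at h1
            exact (Finset.card_le_card (Finset.sdiff_subset_sdiff (Finset.Subset.refl _) hI2)).trans
              h1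
          have hcS : (S τ' \ (V2 ∪ I τ')).card ≤ 1 := by
            refine (Finset.card_le_card ?_).trans (hSI τ' hτ'T)
            intro x hx
            simp only [Finset.mem_sdiff, Finset.mem_union, not_or] at hx ⊢
            exact ⟨hx.1, hx.2.2, fun h => hx.2.1 (hinv2.sub (hF h))⟩
          have hc1 := Travel_card (S0 := S0) (V := V2) (W := I τ')
          have hc2 := Travel_card (S0 := S0) (V := V2 ∪ I τ') (W := S τ')
          set e3 : ℕ → ℕ := Function.update e2 i (e2 i + 1) with he3
          set U3 : ℕ → Finset ι := Function.update U2 i (U2 i ∪ O) with hU3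
          have hsum : ∑ j ∈ Finset.range (M + 1), 6 * 2 ^ j * e3 j =
              ∑ j ∈ Finset.range (M + 1), 6 * 2 ^ j * e2 j + 6 * 2 ^ i := by
            have hmem : i ∈ Finset.range (M + 1) := Finset.mem_range.2 (by omega)
            rw [← Finset.add_sum_erase _ _ hmem, ← Finset.add_sum_erase _ _ hmem]
            have h1 : ∑ j ∈ (Finset.range (M + 1)).erase i, 6 * 2 ^ j * e3 j =
                ∑ j ∈ (Finset.range (M + 1)).erase i, 6 * 2 ^ j * e2 j := by
              refine Finset.sum_congr rfl fun j hj => ?_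
              rw [he3, Function.update_of_ne (Finset.ne_of_mem_erase hj)]
            rw [h1, he3, Function.update_self]
            ring
          have hch3 : ∀ j ≤ M, Ch (A j) (A' j) N (yy j) S0 (e3 j) (U3 j) := by
            intro j hj
            rcases eq_or_ne j i with rfl | hji
            · rw [he3, hU3, Function.update_self, Function.update_self]
              exact Ch.succ (hinv2.ch j hj) hOc hOA hnot
            · rw [he3, hU3, Function.update_of_ne hji, Function.update_of_ne hji]
              exact hinv2.ch j hj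
          have hUs3 : ∀ j ≤ M, U3 j ⊆ V2 ∪ I τ' ∪ S τ' := by
            intro j hj
            rcases eq_or_ne j i with rfl | hji
            · rw [hU3, Function.update_self]
              refine Finset.union_subset ?_ (hOS.trans Finset.subset_union_right)
              exact (hinv2.Usub j hj).trans (Finset.subset_union_left.trans
                Finset.subset_union_left)
            · rw [hU3, Function.update_of_ne hji]
              exact (hinv2.Usub j hj).trans (Finset.subset_union_left.trans
                Finset.subset_union_left)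
          have hbd2 := hinv2.bd
          have hle2 := hinv2.le
          have hbd3 : ((V2 ∪ I τ' ∪ S τ') \ S0).card ≤
              ∑ j ∈ Finset.range (M + 1), 6 * 2 ^ j * e3 j + β := by
            rw [hsum]
            omega
          have hinv3 : Travel_Inv A A' N M X S0 β (V2 ∪ I τ' ∪ S τ') e3 U3 :=
            ⟨hinv2.sub.trans (Finset.subset_union_left.trans Finset.subset_union_left), hch3,
              hUs3, hbd3, hsize _ e3 U3 β hch3 hUs3 hbd3 (by omega) (by omega)⟩
          obtain ⟨V', e', U', hVV', hinv', hIb, hkeep'⟩ := ihk (b - τ') (by omega) τ' b (by omega)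
            hbT β (V2 ∪ I τ' ∪ S τ') e3 U3 hβ hinv3
            (Finset.subset_union_right.trans Finset.subset_union_left)
            (fun t ht1 ht2 j hj1 hj2 => htype t (by omega) ht2 j hj1 hj2)
          refine ⟨V', e', U', ?_, hinv', hIb, fun j hj => ?_⟩
          · exact hVV2'.trans ((Finset.subset_union_left.trans Finset.subset_union_left).trans hVV')
          · obtain ⟨h1, h2⟩ := hkeep' j hj
            obtain ⟨h3, h4⟩ := hkeep2 j (by omega)
            have hji : j ≠ i := by omega
            rw [h1, h2, he3, hU3, Function.update_of_ne hji, Function.update_of_ne hji]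
            exact ⟨h3, h4⟩
        · -- no time of level i
          obtain ⟨V', e', U', hVV', hinv', hIb, hkeep'⟩ := ih' (b - τ) τ b (by omega) hbT
            (β + 2 ^ i) (V ∪ I τ) e U (by omega) hV1 Finset.subset_union_right
            (fun t ht1 ht2 j hj1 hj2 hl => by
              rcases Nat.lt_or_ge i j with h1 | h1
              · exact htype t (by omega) ht2 j h1 hj2 hl
              · obtain rfl : j = i := by omega
                exact hex ⟨t, ht1, ht2, hl⟩)
          refine ⟨V', e', U', Finset.subset_union_left.trans hVV', ?_, hIb,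
            fun j hj => hkeep' j (by omega)⟩
          refine ⟨hinv'.sub, hinv'.ch, hinv'.Usub, ?_, hinv'.le⟩
          have h1 := hinv'.bd
          rw [hov]
          omega
  intro t ht
  have h0 : Travel_Inv A A' N M X S0 0 S0 (fun _ => 0) (fun _ => S0) :=
    ⟨Finset.Subset.refl _, fun j _ => Ch.zero, fun j _ => Finset.Subset.refl _, by simp, by simp⟩
  obtain ⟨V', e', U', _, hinv, hI, _⟩ := claim (M + 1) le_rfl t 0 t (by omega) ht 0 S0
    (fun _ => 0) (fun _ => S0) (by simp [Travel_ov]) h0 hI0
    (fun s _ _ j hj1 hj2 => by omega)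
  exact (Finset.card_le_card (Finset.sdiff_subset_sdiff hI (Finset.Subset.refl _))).trans hinv.le

end Pool.Agent.Lib.MP_ab1b6f_lcH
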