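import Mathlib
import Pool.Agent.Lib.MP_ab1b6f_lcH.HTravel
import Pool.Agent.Lib.MP_ab1b6f_lcH.HCount
import Pool.Agent.Lib.MP_ab1b6f_lcH.HGeo
import Pool.Agent.Lib.MP_ab1b6f_lcH.HPath
import Pool.Agent.Lib.MP_ab1b6f_lcH.HNumF

/-!
# The deterministic bound for increasing paths
-/

open scoped ENNReal

namespace Pool.Agent.Lib.MP_ab1b6f_lcH

open Pool.Agent.Lib.MP_ab1b6f_lc

variable {m n q M : ℕ} {b : ℝ}

theorem IncPath.ext {P : Set (Pt n)} {c : Pt n} {l : ℕ} {x : ℕ → Pt n} (hx : IncPath P c l x)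
    (hl : 1 ≤ l) {i : ℕ} (hi : i ≤ l) : x i ∈ P.extremePoints ℝ := by
  rcases Nat.lt_or_ge i l with h | h
  · exact (hx i h).2.1
  · have e : i = (l - 1) + 1 := by omega
    rw [e]
    exact (hx (l - 1) (by omega)).2.2.1

theorem IncPath.lt {P : Set (Pt n)} {c : Pt n} {l : ℕ} {x : ℕ → Pt n} (hx : IncPath P c l x)
    {i : ℕ} (hi : i < l) : inner ℝ c (x i) < inner ℝ c (x (i + 1)) := by
  have := (hx i hi).2.2.2.2
  rw [inner_sub_right] at this
  linarith

theorem IncPath.lt_of_lt {P : Set (Pt n)} {c : Pt n} {l : ℕ} {x : ℕ → Pt n}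
    (hx : IncPath P c l x) {s t : ℕ} (hst : s < t) (ht : t ≤ l) :
    inner ℝ c (x s) < inner ℝ c (x t) := by
  induction t, hst using Nat.le_induction with
  | base => exact hx.lt (by omega)
  | succ t hst ih => exact (ih (by omega)).trans (hx.lt (by omega))

/-- The basis determines the vertex. -/
theorem IncPath.inj {D : Data m n} {c : Pt n} {l : ℕ} {x : ℕ → Pt n}
    (hx : IncPath (poly D) c l x) (hl : 1 ≤ l) {s t : ℕ} (hs : s ≤ l) (ht : t ≤ l)
    (hst : act D (x s) = act D (x t)) : s = t := by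
  have hxx : x s = x t := by
    have h0 : x s - x t = 0 := by
      refine eq_zero_of_ext (hx.ext hl hs) fun i hi => ?_
      have h1 := mem_act.1 hi
      have h2 := mem_act.1 (hst ▸ hi)
      rw [lhs_sub, h1, h2, sub_self]
    exact sub_eq_zero.1 h0
  by_contra hne
  rcases Nat.lt_or_gt_of_ne hne with h | h
  · have := hx.lt_of_lt h ht
    rw [hxx] at this
    exact lt_irrefl _ this
  · have := hx.lt_of_lt h hs
    rw [hxx] at this
    exact lt_irrefl _ this

/-- The active sets of two consecutive vertices. -/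
theorem IncPath.step {D : Data m n} {c : Pt n} {l : ℕ} {x : ℕ → Pt n} (hS : IsSimple D)
    (hx : IncPath (poly D) c l x) {i : ℕ} (hi : i < l) :
    (up (act D (x (i + 1))) \ up (act D (x i))).card ≤ 1 := by
  obtain ⟨d, hd⟩ := hS.exists_dirs (hx i hi).2.1
  obtain ⟨j, hj, s, hs, hws, _⟩ := hd.nbr_dir (hx i hi)
  obtain ⟨k, hk, hact⟩ := hd.nbr_act hS hj hs hws (hx i hi)
  have hsub : up (act D (x (i + 1))) \ up (act D (x i)) ⊆ {Sum.inl k} := by
    intro a ha
    rw [Finset.mem_sdiff] at ha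
    obtain ⟨i', hi', rfl⟩ := mem_up.1 ha.1
    rw [hact] at hi'
    rcases Finset.mem_insert.1 hi' with h | h
    · simp [h]
    · exact absurd (inl_mem_up.2 (Finset.mem_of_mem_erase h)) ha.2
  exact (Finset.card_le_card hsub).trans (by simp)

theorem tl_le_tl {b : ℝ} (hb : 1 ≤ b) {K h i j : ℕ} (hij : i ≤ j) : tl b K h i ≤ tl b K h j := by
  unfold tl
  have h0 : 0 < b := by linarith
  apply div_le_div_of_nonneg_right _ (by positivity)
  exact pow_le_pow_right₀ hb (Nat.mul_le_mul_left _ hij)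

theorem tl'_le_tl {b : ℝ} (hb : 1 ≤ b) (K h j : ℕ) : tl' b K h j ≤ tl b K h (j + 1) := by
  unfold tl' tl
  have h0 : 0 < b := by linarith
  apply div_le_div_of_nonneg_right _ (by positivity)
  apply pow_le_pow_right₀ hb
  have e : 2 * h * (j + 1) = 2 * h * j + 2 * h := by ring
  omega

theorem tl_le_tl' {b : ℝ} (hb : 1 ≤ b) (K h j : ℕ) : tl b K h j ≤ tl' b K h j := by
  unfold tl' tl
  have h0 : 0 < b := by linarith
  apply div_le_div_of_nonneg_right _ (by positivity)
  apply pow_le_pow_right₀ hb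
  omega

/-- A run of ill-conditioned vertices. -/
theorem bad_run {D : Data m n} {c : Pt n} (hp : ParH m n q M b)
    (hE : LevEv (fam D c) (rnd m) (fixed m) n q M (KK q M) (hh q M) b (b ^ 4))
    (hS : IsSimple D) {l : ℕ} {x : ℕ → Pt n} (hx : IncPath (poly D) c l x) (hl : 1 ≤ l) {s r : ℕ}
    (hsr : s + r ≤ l)
    (hbad : ∀ i, s ≤ i → i ≤ s + r → ¬ GoodH D c (tl b (KK q M) (hh q M) 0) (x i)) :
    r + 1 ≤ (n + 1) ^ (24 * q) * (m + 1) ^ (24 * q) := by
  classical
  have hb1 : 1 ≤ b := by linarith [hp.hb3]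
  have hact : ∀ t ≤ r, (act D (x (s + t))).card = n := fun t ht =>
    hS _ (hx.ext hl (by omega))
  have hSex : ∀ t, ∃ S : Finset (Idx m), t ≤ r → (S.card = n + 1 ∧
      (up (act D (x (s + t))) \ S).card ≤ 1 ∧
      (S \ (up (act D (x (s + t))) ∪ fixed m)).card ≤ 1 ∧
      ¬ Ind (fam D c) S (tl b (KK q M) (hh q M) 0)) := by
    intro t
    by_cases ht : t ≤ r
    · by_contra hcon
      refine hbad (s + t) (by omega) (by omega) ⟨hx.ext hl (by omega), fun S h1 h2 h3 => ?_⟩
      by_contra h4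
      exact hcon ⟨S, fun _ => ⟨h1, h2, h3, h4⟩⟩
    · exact ⟨∅, fun h => absurd h ht⟩
  choose S hSt using hSex
  have htr := travel (ι := Idx m)
    (fun j O => ¬ Ind (fam D c) O (tl b (KK q M) (hh q M) j))
    (fun j O => ¬ Ind (fam D c) O (tl' b (KK q M) (hh q M) j)) (n + 1) M (24 * q)
    (fun j O O' hOO h1 h2 => h1 (h2.subset hOO))
    (fun j O h1 h2 => h1 (h2.mono (tl'_le_tl hb1 _ _ _)))
    (up (act D (x s)) ∪ fixed m) (fixed m) (fun t => up (act D (x (s + t)))) S r
    Finset.subset_union_right Finset.subset_union_left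
    (fun t ht => (hSt t ht).1) (fun t ht => (hSt t ht).2.2.2)
    (fun t ht => (hSt t ht).2.1) (fun t ht => (hSt t ht).2.2.1)
    (fun t ht => hx.step hS (i := s + t) (by omega))
    (fun t ht O hO hc h1 => h1 (hE.glob O hc)) (Lq q M)
    (fun j hj e U hU hc => hE.lev _ (by
        refine (Finset.card_union_le _ _).trans ?_
        have h1 : (fixed m).card = 2 := by
          rw [fixed, Finset.card_map, Finset.card_univ, Fintype.card_fin]
        have h2 := hact 0 (Nat.zero_le _)
        rw [Nat.add_zero] at h2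
        rw [card_up, h2, h1]) Finset.subset_union_right j hj e U hU (by
        have e1 : 2 * (24 * q) = 48 * q := by ring
        rw [e1] at hc
        exact hc))
    (by
      have h1 := hp.hM2
      have h2 := hp.hq
      omega)
    (Lq_sum hp.hM2)
  refine run_count (fun t => act D (x (s + t))) hact (fun a ha b' hb' hab => ?_) (fun t ht => ?_)
  · have := hx.inj hl (by omega) (by omega) hab
    omega
  · refine le_trans ?_ (htr t ht)
    have hinj : ((act D (x (s + t)) \ act D (x (s + 0))).map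
        ⟨Sum.inl, Sum.inl_injective⟩ : Finset (Idx m)) ⊆
        up (act D (x (s + t))) \ (up (act D (x s)) ∪ fixed m) := by
      intro a ha
      rw [Finset.mem_map] at ha
      obtain ⟨i, hi, rfl⟩ := ha
      rw [Finset.mem_sdiff] at hi
      rw [Finset.mem_sdiff, Finset.mem_union]
      refine ⟨inl_mem_up.2 hi.1, ?_⟩
      rintro (h | h)
      · exact hi.2 (by rw [Nat.add_zero]; exact inl_mem_up.1 h)
      · obtain ⟨k, hk⟩ := mem_fixed.1 h
        exact absurd hk (by simp)
    have := Finset.card_le_card hinj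
    rwa [Finset.card_map] at this

/-- The deterministic bound: every increasing path has at most `b ^ (4 K)` steps. -/
theorem det_path {D : Data m n} {c : Pt n} (hc : c ≠ 0) (hp : ParH m n q M b)
    (hE : LevEv (fam D c) (rnd m) (fixed m) n q M (KK q M) (hh q M) b (b ^ 4))
    (hS : IsSimple D) {l : ℕ} {x : ℕ → Pt n} (hx : IncPath (poly D) c l x) :
    (l : ℝ) ≤ b ^ (4 * KK q M) := by
  have hb3 := hp.hb3
  have hb0 : 0 < b := by linarith
  rcases Nat.eq_zero_or_pos l with rfl | hl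
  · simp only [Nat.cast_zero]; positivity
  have hcn : 0 < ‖c‖ := norm_pos_iff.2 hc
  have hη : 0 < tl b (KK q M) (hh q M) 0 := by unfold tl; positivity
  have hR : (0 : ℝ) < b ^ 4 := by positivity
  have hRn : ∀ i, ‖fam D c (Sum.inl i)‖ ≤ b ^ 4 := fun i => hE.norm_le _ (mem_rnd.2 ⟨i, rfl⟩)
  have hcount := path_count l ((n + 1) ^ (24 * q) * (m + 1) ^ (24 * q))
    (fun i => inner ℝ c (x i)) (fun i => GoodH D c (tl b (KK q M) (hh q M) 0) (x i))
    (γ := tl b (KK q M) (hh q M) 0 ^ 2 * ‖c‖ / b ^ 4) (B := ‖c‖ / tl b (KK q M) (hh q M) 0)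
    (by positivity) (by positivity) (fun i hi => hx.lt hi)
    (fun i hi hg => by
      refine ⟨?_, hg.abs_le hη hS⟩
      have := hg.gain hη hR hc hRn hS (hx i hi)
      rw [inner_sub_right] at this
      exact this)
    (fun s r hsr hbad => bad_run hp hE hS hx hl hsr hbad)
  exact hcount.trans (final_num hp hcn)

end Pool.Agent.Lib.MP_ab1b6f_lcH
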