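import Mathlib
import Pool.Agent.Lib.MP_ab1b6f_lc.DstProb

/-!
# The distance of a random row to the span of other vectors, large codimension  (leaf Dst)
-/

open scoped ENNReal
open MeasureTheory ProbabilityTheory

namespace Pool.Agent.Lib.MP_ab1b6f_lcH

open Pool.Agent.Lib.MP_ab1b6f_lc

private theorem Dst_pow (D : ℝ) (hD : 0 ≤ D) {c : ℕ} (hc : 1 ≤ c) :
    (ENNReal.ofReal D) ^ (-(c : ℝ) / 2) ≤
      1 + ∑' k : ℕ, if D ≤ (1 / 4 : ℝ) ^ k then ((2 : ℝ≥0∞) ^ (k + 1)) ^ c else 0 := by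
  have hc0 : (0 : ℝ) < c := by exact_mod_cast hc
  have hneg : -(c : ℝ) / 2 < 0 := by linarith
  rcases eq_or_lt_of_le hD with h0 | h0
  · have htop : ∑' k : ℕ, (if D ≤ (1 / 4 : ℝ) ^ k then ((2 : ℝ≥0∞) ^ (k + 1)) ^ c else 0) = ∞ := by
      refine top_le_iff.mp ?_
      rw [← ENNReal.tsum_const_eq_top_of_ne_zero (α := ℕ) (c := (1 : ℝ≥0∞)) one_ne_zero]
      refine ENNReal.tsum_le_tsum fun k => ?_
      rw [if_pos (by rw [← h0]; positivity)]
      exact one_le_pow₀ (one_le_pow₀ (by norm_num))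
    rw [htop]
    simp
  · rcases le_or_gt 1 D with h1 | h1
    · refine le_trans ?_ le_self_add
      exact ENNReal.rpow_le_one_of_one_le_of_neg (by rwa [ENNReal.one_le_ofReal]) hneg
    · obtain ⟨k, hk1, hk2⟩ := exists_nat_pow_near_of_lt_one h0 h1.le
        (by norm_num : (0 : ℝ) < 1 / 4) (by norm_num)
      refine le_trans ?_ (le_trans (ENNReal.le_tsum k) le_add_self)
      rw [if_pos hk2, ENNReal.ofReal_rpow_of_pos h0]
      have h2 : D ^ (-(c : ℝ) / 2) ≤ ((1 / 4 : ℝ) ^ (k + 1)) ^ (-(c : ℝ) / 2) :=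
        Real.rpow_le_rpow_of_nonpos (by positivity) hk1.le hneg.le
      have h3 : ((1 / 4 : ℝ) ^ (k + 1)) ^ (-1 / 2 : ℝ) = 2 ^ (k + 1) := by
        rw [show (-1 / 2 : ℝ) = -(1 / 2) by norm_num, Real.rpow_neg (by positivity),
          ← Real.sqrt_eq_rpow]
        have h4 : (1 / 4 : ℝ) ^ (k + 1) = ((1 / 2 : ℝ) ^ (k + 1)) ^ 2 := by
          rw [← pow_mul, mul_comm, pow_mul]
          norm_num
        rw [h4, Real.sqrt_sq (by positivity), ← inv_pow]
        norm_num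
      have h5 : ((1 / 4 : ℝ) ^ (k + 1)) ^ (-(c : ℝ) / 2) = (2 ^ (k + 1)) ^ c := by
        rw [show -(c : ℝ) / 2 = (-1 / 2 : ℝ) * (c : ℝ) by ring, Real.rpow_mul (by positivity), h3,
          Real.rpow_natCast]
      rw [h5] at h2
      refine (ENNReal.ofReal_le_ofReal h2).trans ?_
      rw [ENNReal.ofReal_pow (by positivity), ENNReal.ofReal_pow (by norm_num)]
      norm_num

private theorem Dst_num (N c : ℕ) (hc : 1 ≤ c) (hN : 1 ≤ N) :
    1 + 2 * (2 * √(N : ℝ)) ^ c ≤ (5 * (N : ℝ)) ^ c := by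
  have hN1 : (1 : ℝ) ≤ N := by exact_mod_cast hN
  have h1 : √(N : ℝ) ≤ N := by
    rw [Real.sqrt_le_left (by positivity)]
    nlinarith
  have h2 : (2 * √(N : ℝ)) ^ c ≤ (2 * (N : ℝ)) ^ c :=
    pow_le_pow_left₀ (by positivity) (by linarith) c
  refine le_trans (by linarith : _ ≤ 1 + 2 * (2 * (N : ℝ)) ^ c) ?_
  clear h2
  induction c, hc using Nat.le_induction with
  | base =>
    rw [pow_one, pow_one]
    linarith
  | succ c hc ih =>
    have h3 : (0 : ℝ) ≤ (2 * (N : ℝ)) ^ c := by positivity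
    calc 1 + 2 * (2 * (N : ℝ)) ^ (c + 1) ≤ (1 + 2 * (2 * (N : ℝ)) ^ c) * (5 * N) := by
          rw [pow_succ]
          nlinarith [mul_nonneg h3 (by linarith : (0 : ℝ) ≤ N)]
      _ ≤ (5 * (N : ℝ)) ^ c * (5 * N) := mul_le_mul_of_nonneg_right ih (by positivity)
      _ = _ := (pow_succ _ _).symm

/-- Copy of `dst_expect` (file DstProb, case `c = 1`). For a random variable `D ≥ 0` with
`P(D ≤ θ) ≤ min(1, √N θ) ^ c` (`dst_tail`, the exponent `N - |W|` is at least `c`): pointwise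
`D ^ (-c/2) ≤ 1 + ∑_k 2 ^ (c (k+1)) 1_{D ≤ 4 ^ (-k)}` (in `[0, ∞]`), so the expectation is at most
`1 + ∑_k 2 ^ (c (k+1)) (√N 4 ^ (-k)) ^ c = 1 + (2 √N) ^ c ∑_k 2 ^ (-c k) ≤ 1 + 2 (2 √N) ^ c ≤ (5 N) ^ c`
(`c ≥ 1`, `N ≥ 1`). -/
theorem dst_expect_pow {m N : ℕ} (ν : Fin N → Measure ℝ) [∀ j, IsProbabilityMeasure (ν j)]
    (hν : ∀ j, SB (ν j)) (f : Fin 2 → Pt N) (ω : Fin m → Fin N → ℝ) (a : Fin m)
    (W : Finset (Idx m)) (ha : Sum.inl a ∉ W) (c : ℕ) (hc : 1 ≤ c) (hW : W.card + c ≤ N) :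
    ∫⁻ x, (ENNReal.ofReal (dst (famE f (Function.update ω a x)) (Sum.inl a) W)) ^ (-(c : ℝ) / 2)
      ∂(Measure.pi ν) ≤ (5 * (N : ℝ≥0∞)) ^ c := by
  set μ := Measure.pi ν with hμ
  set S : ℕ → Set (Fin N → ℝ) := fun k =>
    {x | dst (famE f (Function.update ω a x)) (Sum.inl a) W ≤ (1 / 4 : ℝ) ^ k} with hS
  have hSμ : ∀ k, μ (S k) ≤ ENNReal.ofReal (√N * (1 / 4 : ℝ) ^ k) ^ c := by
    intro k
    have h1 : μ (S k) ≤ ENNReal.ofReal (√N * (1 / 4 : ℝ) ^ k) ^ (N - W.card) :=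
      dst_tail ν hν f ω a W ha (by positivity)
    rcases le_or_gt (ENNReal.ofReal (√N * (1 / 4 : ℝ) ^ k)) 1 with h2 | h2
    · exact h1.trans (pow_le_pow_of_le_one zero_le h2 (by omega))
    · exact prob_le_one.trans (one_le_pow₀ h2.le)
  have hpt : ∀ x, (ENNReal.ofReal (dst (famE f (Function.update ω a x)) (Sum.inl a) W)) ^
      (-(c : ℝ) / 2) ≤ 1 + ∑' k : ℕ, ((2 : ℝ≥0∞) ^ (k + 1)) ^ c *
        (toMeasurable μ (S k)).indicator 1 x := by
    intro x
    refine (Dst_pow _ (dst_nonneg _ _ _) hc).trans ?_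
    refine add_le_add le_rfl (ENNReal.tsum_le_tsum fun k => ?_)
    split_ifs with h
    · have hx : x ∈ toMeasurable μ (S k) := subset_toMeasurable μ (S k) h
      rw [Set.indicator_of_mem hx, Pi.one_apply, mul_one]
    · exact zero_le
  have hmeas : ∀ k : ℕ, Measurable fun x => ((2 : ℝ≥0∞) ^ (k + 1)) ^ c *
      (toMeasurable μ (S k)).indicator (1 : (Fin N → ℝ) → ℝ≥0∞) x := by
    intro k
    exact (measurable_one.indicator (measurableSet_toMeasurable μ (S k))).const_mul _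
  calc ∫⁻ x, (ENNReal.ofReal (dst (famE f (Function.update ω a x)) (Sum.inl a) W)) ^
      (-(c : ℝ) / 2) ∂μ
      ≤ ∫⁻ x, (1 + ∑' k : ℕ, ((2 : ℝ≥0∞) ^ (k + 1)) ^ c *
        (toMeasurable μ (S k)).indicator 1 x) ∂μ := lintegral_mono hpt
    _ = 1 + ∑' k : ℕ, ((2 : ℝ≥0∞) ^ (k + 1)) ^ c * μ (S k) := by
        rw [lintegral_add_left measurable_const, lintegral_const, measure_univ, mul_one,
          lintegral_tsum fun k => (hmeas k).aemeasurable]
        congr 1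
        refine tsum_congr fun k => ?_
        rw [lintegral_const_mul _ (measurable_one.indicator (measurableSet_toMeasurable μ (S k))),
          lintegral_indicator_one (measurableSet_toMeasurable μ (S k)), measure_toMeasurable]
    _ ≤ 1 + ∑' k : ℕ, ENNReal.ofReal ((2 * √N) ^ c) * ENNReal.ofReal ((1 / 2 : ℝ) ^ k) := by
        refine add_le_add le_rfl (ENNReal.tsum_le_tsum fun k => ?_)
        have h2 : ((2 : ℝ≥0∞) ^ (k + 1)) ^ c = ENNReal.ofReal ((2 ^ (k + 1)) ^ c) := by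
          rw [ENNReal.ofReal_pow (by positivity), ENNReal.ofReal_pow (by norm_num)]
          norm_num
        rw [h2, ← ENNReal.ofReal_mul (by positivity)]
        refine (mul_le_mul_right (hSμ k) _).trans ?_
        rw [← ENNReal.ofReal_pow (by positivity), ← ENNReal.ofReal_mul (by positivity)]
        refine ENNReal.ofReal_le_ofReal ?_
        have h3 : (2 : ℝ) ^ k * (1 / 4 : ℝ) ^ k = (1 / 2 : ℝ) ^ k := by
          rw [← mul_pow]
          norm_num
        have h4 : ((1 / 2 : ℝ) ^ k) ^ c ≤ (1 / 2 : ℝ) ^ k :=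
          pow_le_of_le_one (by positivity) (pow_le_one₀ (by norm_num) (by norm_num)) (by omega)
        calc ((2 : ℝ) ^ (k + 1)) ^ c * (√N * (1 / 4 : ℝ) ^ k) ^ c =
            (2 * √N * ((2 : ℝ) ^ k * (1 / 4 : ℝ) ^ k)) ^ c := by
              rw [← mul_pow, pow_succ]
              congr 1
              ring
          _ = (2 * √N) ^ c * ((1 / 2 : ℝ) ^ k) ^ c := by rw [h3, mul_pow]
          _ ≤ _ := mul_le_mul_of_nonneg_left h4 (by positivity)
    _ = 1 + ENNReal.ofReal ((2 * √N) ^ c) * ENNReal.ofReal 2 := by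
        rw [ENNReal.tsum_mul_left, ← ENNReal.ofReal_tsum_of_nonneg (fun k => by positivity)
          summable_geometric_two, tsum_geometric_two]
    _ = ENNReal.ofReal (1 + 2 * (2 * √N) ^ c) := by
        rw [← ENNReal.ofReal_mul (by positivity), ENNReal.ofReal_add (by norm_num) (by positivity),
          ENNReal.ofReal_one, mul_comm (2 : ℝ) ((2 * √(N : ℝ)) ^ c)]
    _ ≤ ENNReal.ofReal ((5 * N) ^ c) :=
        ENNReal.ofReal_le_ofReal (Dst_num N c hc (by omega))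
    _ = (5 * (N : ℝ≥0∞)) ^ c := by
        rw [ENNReal.ofReal_pow (by positivity), ENNReal.ofReal_mul (by norm_num), ENNReal.ofReal_natCast]
        norm_num

end Pool.Agent.Lib.MP_ab1b6f_lcH
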