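import Mathlib
import Pool.Agent.Lib.MP_ab1b6f_lc.ReachG

/-!
# A majorant for a negative power of the product of distances  (leaf G)

Copies of the theorems of the file ReachG (exponent `-1/2`).
-/

open scoped ENNReal

namespace Pool.Agent.Lib.MP_ab1b6f_lcH

open Pool.Agent.Lib.MP_ab1b6f_lc

variable {ι V : Type*} [DecidableEq ι] [NormedAddCommGroup V] [NormedSpace ℝ V]

/-- Sum over all ways to reach `U` in `k` steps of the product of the `dst ^ (-s)`. -/
noncomputable def GS (s : ℝ) (w : ι → V) (rnd : Finset ι) (Q n : ℕ) : ℕ → Finset ι → ℝ≥0∞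
  | 0, _ => 1
  | k + 1, U => ∑ a ∈ U.filter (· ∈ rnd), ∑ W ∈ choices Q n (U.erase a),
      GS s w rnd Q n k (U.erase a) * (ENNReal.ofReal (dst w a W)) ^ (-s)

/-- Copy of `Reach.le_G`. -/
theorem reach_le_GS {s : ℝ} (hs : 0 ≤ s) {w : ι → V} {rnd S0 : Finset ι} {Q n k : ℕ} {U : Finset ι}
    {p : ℝ} (h : Reach w rnd S0 Q n k U p) :
    (ENNReal.ofReal p) ^ (-s) ≤ GS s w rnd Q n k U := by
  induction h with
  | zero => simp [GS]
  | @succ k U p a W h ha haU hW hQ hn ih =>
    have h1 : a ∈ (insert a U).filter (· ∈ rnd) :=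
      Finset.mem_filter.mpr ⟨Finset.mem_insert_self a U, ha⟩
    have h2 : (insert a U).erase a = U := Finset.erase_insert haU
    have h3 : W ∈ choices Q n ((insert a U).erase a) := by
      rw [h2]
      exact Finset.mem_filter.mpr ⟨Finset.mem_powerset.mpr hW, hQ, hn⟩
    have h4 : (ENNReal.ofReal (p * dst w a W)) ^ (-s) =
        (ENNReal.ofReal p) ^ (-s) * (ENNReal.ofReal (dst w a W)) ^ (-s) := by
      rw [ENNReal.ofReal_mul h.nonneg, ENNReal.mul_rpow_of_ne_top ENNReal.ofReal_ne_top
        ENNReal.ofReal_ne_top]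
    rw [h4]
    calc (ENNReal.ofReal p) ^ (-s) * (ENNReal.ofReal (dst w a W)) ^ (-s)
        ≤ GS s w rnd Q n k U * (ENNReal.ofReal (dst w a W)) ^ (-s) := by
          gcongr
      _ = GS s w rnd Q n k ((insert a U).erase a) *
          (ENNReal.ofReal (dst w a W)) ^ (-s) := by rw [h2]
      _ ≤ ∑ W ∈ choices Q n ((insert a U).erase a), GS s w rnd Q n k ((insert a U).erase a) *
          (ENNReal.ofReal (dst w a W)) ^ (-s) :=
          Finset.single_le_sum (f := fun W => GS s w rnd Q n k ((insert a U).erase a) *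
            (ENNReal.ofReal (dst w a W)) ^ (-s)) (fun _ _ => zero_le) h3
      _ ≤ ∑ a' ∈ (insert a U).filter (· ∈ rnd), ∑ W ∈ choices Q n ((insert a U).erase a'),
          GS s w rnd Q n k ((insert a U).erase a') *
          (ENNReal.ofReal (dst w a' W)) ^ (-s) :=
          Finset.single_le_sum (f := fun a' => ∑ W ∈ choices Q n ((insert a U).erase a'),
            GS s w rnd Q n k ((insert a U).erase a') *
            (ENNReal.ofReal (dst w a' W)) ^ (-s)) (fun _ _ => zero_le) h1
      _ = GS s w rnd Q n (k + 1) (insert a U) := rfl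

omit [DecidableEq ι] in
private theorem G_dst_congr {w w' : ι → V} {a : ι} {W : Finset ι} (ha : w a = w' a)
    (hW : ∀ k ∈ W, w k = w' k) : dst w a W = dst w' a W := by
  unfold dst
  refine iInf_congr fun l => ?_
  rw [ha, Finset.sum_congr rfl fun k hk => by rw [hW k hk]]

/-- Copy of `G_congr`. -/
theorem GS_congr {s : ℝ} {w w' : ι → V} {rnd : Finset ι} {Q n : ℕ} (k : ℕ) {U : Finset ι}
    (h : ∀ i ∈ U, w i = w' i) : GS s w rnd Q n k U = GS s w' rnd Q n k U := by
  induction k generalizing U with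
  | zero => rfl
  | succ k ih =>
    unfold GS
    refine Finset.sum_congr rfl fun a ha => Finset.sum_congr rfl fun W hW => ?_
    have haU : a ∈ U := (Finset.mem_filter.mp ha).1
    have hWU : W ⊆ U.erase a := Finset.mem_powerset.mp (Finset.mem_filter.mp hW).1
    rw [ih fun i hi => h i (Finset.mem_of_mem_erase hi),
      G_dst_congr (h a haU) fun i hi => h i (Finset.mem_of_mem_erase (hWU hi))]

end Pool.Agent.Lib.MP_ab1b6f_lcH
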