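import Mathlib
import Pool.Agent.Lib.MP_ab1b6f_lc.PercProb
import Pool.Agent.Lib.MP_ab1b6f_lcH.HGI

/-!
# The union bound for chains of one level  (leaf Lev)
-/

open scoped ENNReal
open MeasureTheory ProbabilityTheory

namespace Pool.Agent.Lib.MP_ab1b6f_lcH

open Pool.Agent.Lib.MP_ab1b6f_lc

private theorem Lev_anti {x y : ℝ≥0∞} {s : ℝ} (hs : 0 ≤ s) (h : x ≤ y) :
    y ^ (-s) ≤ x ^ (-s) := by
  rw [ENNReal.rpow_neg, ENNReal.rpow_neg, ENNReal.inv_le_inv]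
  exact ENNReal.rpow_le_rpow h hs

private theorem Lev_pow {x : ℝ} (hx : 0 < x) (c : ℕ) :
    (ENNReal.ofReal x) ^ (-((c : ℝ) / 2)) = (ENNReal.ofReal (√x) ^ c)⁻¹ := by
  rw [ENNReal.rpow_neg]
  congr 1
  rw [ENNReal.ofReal_rpow_of_pos hx, ← ENNReal.ofReal_pow (Real.sqrt_nonneg x)]
  congr 1
  rw [Real.sqrt_eq_rpow, ← Real.rpow_natCast, ← Real.rpow_mul hx.le]
  congr 1
  ring

/-- Copy of `perc_prob` (file PercProb) with the exponent `s = (y + 1) / 2` and the product bound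
`p * (b ^ h) ^ E ≤ (2R) ^ k`. For fixed `S0`, `k ≤ D`, and `U = S0 ∪ T` (`Reach.exists_eq_union`, at most
`m ^ k` sets `T`, `|U| ≤ n + 2 + D`): `p ≤ x := (2R) ^ k / (b ^ h) ^ E`, so
`GS ≥ p ^ (-s) ≥ x ^ (-s) = (ofReal √x ^ (y + 1))⁻¹`; Markov's inequality and `lintegral_GS_le` (`c = y + 1`,
`n' = n - y`) bound the probability by
`(ofReal √x) ^ (y + 1) * (|U| (|U| + 1) ^ Q (5 (n + 1)) ^ (y + 1)) ^ k`. The number of sets `S0` is at most
`(m + 3) ^ (n + 2)`. -/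
theorem lev_prob {m n : ℕ} (ν : Fin m → Fin (n + 1) → Measure ℝ)
    [∀ i j, IsProbabilityMeasure (ν i j)] (hν : ∀ i j, SB (ν i j)) (f : Fin 2 → Pt (n + 1))
    (D Q y E h : ℕ) (hy : y ≤ n) {b R : ℝ} (hb : 1 ≤ b) (hR : 1 ≤ R) :
    (Measure.pi fun i => Measure.pi (ν i)) {ω | ∃ S0 : Finset (Idx m), S0.card ≤ n + 2 ∧
      ∃ (k : ℕ) (U : Finset (Idx m)) (p : ℝ), k ≤ D ∧
        Reach (famE f ω) (rnd m) S0 Q (n - y) k U p ∧ p * (b ^ h) ^ E ≤ (2 * R) ^ k} ≤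
      ((m + 3 : ℕ) : ℝ≥0∞) ^ (n + 2) * ∑ k ∈ Finset.range (D + 1),
        (ENNReal.ofReal (√((2 * R) ^ k / (b ^ h) ^ E))) ^ (y + 1) *
          ((m : ℝ≥0∞) * (((n + 2 + D : ℕ) : ℝ≥0∞) * ((n + 3 + D : ℕ) : ℝ≥0∞) ^ Q *
            (5 * ((n + 1 : ℕ) : ℝ≥0∞)) ^ (y + 1))) ^ k := by
  classical
  set μ : Measure (Fin m → Fin (n + 1) → ℝ) := Measure.pi fun i => Measure.pi (ν i) with hμ
  set x : ℕ → ℝ := fun k => (2 * R) ^ k / (b ^ h) ^ E with hxdef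
  have hbE : 0 < (b ^ h) ^ E := pow_pos (pow_pos (by linarith) h) E
  have hx : ∀ k, 0 < x k := fun k => div_pos (pow_pos (by linarith) k) hbE
  set s : ℕ → ℝ≥0∞ := fun k => ENNReal.ofReal (√(x k)) with hs
  have hs0 : ∀ k, s k ≠ 0 := by
    intro k
    rw [hs, Ne, ENNReal.ofReal_eq_zero, not_le]
    exact Real.sqrt_pos.mpr (hx k)
  have hst : ∀ k, s k ≠ ⊤ := fun k => ENNReal.ofReal_ne_top
  set small : Finset (Finset (Idx m)) :=
    (Finset.univ : Finset (Idx m)).powerset.filter (fun E => E.card ≤ n + 2) with hsmall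
  set A : ℕ → ℝ≥0∞ := fun k => s k ^ (y + 1) *
    ((m : ℝ≥0∞) * (((n + 2 + D : ℕ) : ℝ≥0∞) * ((n + 3 + D : ℕ) : ℝ≥0∞) ^ Q *
            (5 * ((n + 1 : ℕ) : ℝ≥0∞)) ^ (y + 1))) ^ k with hA
  -- the events
  set Ev : Finset (Idx m) → ℕ → Finset (Idx m) → Set (Fin m → Fin (n + 1) → ℝ) :=
    fun S0 k T => {ω | (s k ^ (y + 1))⁻¹ ≤
      GS (((y + 1 : ℕ) : ℝ) / 2) (famE f ω) (rnd m) Q (n - y) k (S0 ∪ T)} with hEv
  have hsub : {ω | ∃ S0 : Finset (Idx m), S0.card ≤ n + 2 ∧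
      ∃ (k : ℕ) (U : Finset (Idx m)) (p : ℝ), k ≤ D ∧
        Reach (famE f ω) (rnd m) S0 Q (n - y) k U p ∧ p * (b ^ h) ^ E ≤ (2 * R) ^ k} ⊆
      ⋃ S0 ∈ small, ⋃ k ∈ Finset.range (D + 1), ⋃ T ∈ (rnd m).powersetCard k,
        Ev S0 k T := by
    rintro ω ⟨S0, hS0, k, U, p, hkD, hreach, hp⟩
    obtain ⟨T, hT, hUT⟩ := hreach.exists_eq_union
    simp only [Set.mem_iUnion]
    refine ⟨S0, ?_, k, ?_, T, hT, ?_⟩
    · rw [hsmall, Finset.mem_filter]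
      exact ⟨Finset.mem_powerset.mpr (Finset.subset_univ _), hS0⟩
    · rw [Finset.mem_range]
      omega
    · change (s k ^ (y + 1))⁻¹ ≤
        GS (((y + 1 : ℕ) : ℝ) / 2) (famE f ω) (rnd m) Q (n - y) k (S0 ∪ T)
      rw [← hUT]
      have h0 : (0 : ℝ) ≤ ((y + 1 : ℕ) : ℝ) / 2 := by positivity
      refine le_trans ?_ (reach_le_GS h0 hreach)
      rw [hs, ← Lev_pow (hx k) (y + 1)]
      apply Lev_anti h0
      apply ENNReal.ofReal_le_ofReal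
      rw [hxdef]
      change p ≤ (2 * R) ^ k / (b ^ h) ^ E
      rw [le_div_iff₀ hbE]
      exact hp
  -- the probability of one event
  have hone : ∀ S0 ∈ small, ∀ k ∈ Finset.range (D + 1),
      ∀ T ∈ (rnd m).powersetCard k, μ (Ev S0 k T) ≤
        s k ^ (y + 1) * (((n + 2 + D : ℕ) : ℝ≥0∞) * ((n + 3 + D : ℕ) : ℝ≥0∞) ^ Q *
            (5 * ((n + 1 : ℕ) : ℝ≥0∞)) ^ (y + 1)) ^ k := by
    intro S0 hS0 k hk T hT
    rw [hsmall, Finset.mem_filter] at hS0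
    rw [Finset.mem_range] at hk
    rw [Finset.mem_powersetCard] at hT
    have hcard : (S0 ∪ T).card ≤ n + 2 + D := by
      refine (Finset.card_union_le _ _).trans ?_
      omega
    have hmark := meas_ge_le_lintegral_div (μ := μ)
      (measurable_GS (((y + 1 : ℕ) : ℝ) / 2) f Q (n - y) k (S0 ∪ T)).aemeasurable
      (ε := (s k ^ (y + 1))⁻¹) (ENNReal.inv_ne_zero.mpr (ENNReal.pow_ne_top (hst k)))
      (ENNReal.inv_ne_top.mpr (pow_ne_zero _ (hs0 k)))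
    refine hmark.trans ?_
    rw [div_eq_mul_inv, inv_inv, mul_comm]
    have hint := lintegral_GS_le ν hν f Q (n - y) (y + 1) (by omega) (by omega) k (S0 ∪ T)
    have hc1 : ((S0 ∪ T).card : ℝ≥0∞) ≤ ((n + 2 + D : ℕ) : ℝ≥0∞) := by
      exact_mod_cast hcard
    have hc2 : ((S0 ∪ T).card : ℝ≥0∞) + 1 ≤ ((n + 3 + D : ℕ) : ℝ≥0∞) := by
      have : (S0 ∪ T).card + 1 ≤ n + 3 + D := by omega
      exact_mod_cast this
    refine mul_le_mul_right (hint.trans ?_) _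
    gcongr
  -- the sum over T
  have hT : ∀ S0 ∈ small, ∀ k ∈ Finset.range (D + 1),
      μ (⋃ T ∈ (rnd m).powersetCard k, Ev S0 k T) ≤ A k := by
    intro S0 hS0 k hk
    refine (measure_biUnion_finset_le _ _).trans ?_
    refine (Finset.sum_le_sum fun T hT => hone S0 hS0 k hk T hT).trans ?_
    rw [Finset.sum_const, nsmul_eq_mul, Finset.card_powersetCard]
    have hrnd : (rnd m).card = m := by
      rw [rnd, Finset.card_map, Finset.card_univ, Fintype.card_fin]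
    rw [hrnd]
    have hch : ((m.choose k : ℕ) : ℝ≥0∞) ≤ (m : ℝ≥0∞) ^ k := by
      exact_mod_cast Nat.choose_le_pow m k
    refine (mul_le_mul_left hch _).trans (le_of_eq ?_)
    change _ = s k ^ (y + 1) *
      ((m : ℝ≥0∞) * (((n + 2 + D : ℕ) : ℝ≥0∞) * ((n + 3 + D : ℕ) : ℝ≥0∞) ^ Q *
            (5 * ((n + 1 : ℕ) : ℝ≥0∞)) ^ (y + 1))) ^ k
    rw [mul_pow (m : ℝ≥0∞)]
    ring
  refine (measure_mono hsub).trans ((measure_biUnion_finset_le _ _).trans ?_)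
  have hS : ∀ S0 ∈ small, μ (⋃ k ∈ Finset.range (D + 1),
      ⋃ T ∈ (rnd m).powersetCard k, Ev S0 k T) ≤ ∑ k ∈ Finset.range (D + 1), A k := by
    intro S0 hS0
    refine (measure_biUnion_finset_le _ _).trans ?_
    exact Finset.sum_le_sum fun k hk => hT S0 hS0 k hk
  refine (Finset.sum_le_sum hS).trans ?_
  rw [Finset.sum_const, nsmul_eq_mul]
  have hcs : small.card ≤ (m + 3) ^ (n + 2) := by
    have h1 := card_small_subsets (Finset.univ : Finset (Idx m)) (n + 2)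
    have h2 : (Finset.univ : Finset (Idx m)).card = m + 2 := by
      rw [Finset.card_univ, Fintype.card_sum, Fintype.card_fin, Fintype.card_fin]
    rw [h2] at h1
    exact h1
  have hcs' : (small.card : ℝ≥0∞) ≤ ((m + 3 : ℕ) : ℝ≥0∞) ^ (n + 2) := by
    exact_mod_cast hcs
  exact mul_le_mul_left hcs' _

end Pool.Agent.Lib.MP_ab1b6f_lcH
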