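import Mathlib
import Pool.Agent.Lib.MP_ab1b6f_lcH.HPar
import Pool.Agent.Lib.MP_ab1b6f_lc.Params

/-!
# Numerical estimates for small sets and for sets of size `n + 1`  (leaf NumG)
-/

namespace Pool.Agent.Lib.MP_ab1b6f_lcH

open Pool.Agent.Lib.MP_ab1b6f_lc

variable {m n q M : ℕ} {b : ℝ}

/-- Choice of another `q`. -/
private theorem NumG_exists_q (n : ℕ) (hn : 1 ≤ n) : ∃ q : ℕ, 1 ≤ q ∧ n ≤ q ^ 4 ∧
    q ^ 2 + q ≤ 4 * n := by
  classical
  have hex : ∃ q : ℕ, n ≤ q ^ 4 := ⟨n, by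
    calc n = n ^ 1 := (pow_one n).symm
      _ ≤ n ^ 4 := Nat.pow_le_pow_right hn (by norm_num)⟩
  set q := Nat.find hex with hq
  have h1 : n ≤ q ^ 4 := Nat.find_spec hex
  have hq1 : 1 ≤ q := by
    rcases Nat.eq_zero_or_pos q with h | h
    · rw [h] at h1; simp at h1; omega
    · exact h
  have h2 : (q - 1) ^ 4 < n := by
    have := Nat.find_min hex (m := q - 1) (by omega)
    exact not_le.1 this
  obtain ⟨r, hr⟩ : ∃ r, q = r + 1 := ⟨q - 1, by omega⟩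
  rw [hr] at h1 h2
  simp only [Nat.add_sub_cancel] at h2
  refine ⟨r + 1, by omega, h1, ?_⟩
  rcases Nat.eq_zero_or_pos r with h | h
  · subst h; omega
  · have h3 : r ≤ r ^ 2 := by nlinarith
    have h4 : r ^ 2 ≤ r ^ 4 := Nat.pow_le_pow_right h (by norm_num)
    nlinarith

/-- The old parameter structure, for some other `q'` (`exists_q` of the file Final is not imported here;
take the least `q'` with `n ≤ q' ^ 4`, or copy `exists_q`). It gives `Par.norm_bound`, `Par.exp_bound`,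
`Par.coef`, `Par.m3`, `Par.n1`. -/
theorem ParH.par (h : ParH m n q M b) : ∃ q', Par m n q' b := by
  obtain ⟨q', h1, h2, h3⟩ := NumG_exists_q n h.hn
  exact ⟨q', h.hn, h1, h2, h3, h.hb3, h.hbn, h.hbm⟩

/-- `tl b (KK q M) (hh q M) (M + 1) = b ^ (2 hh (M + 1)) / b ^ KK ≤ 1 / b ^ (6 hh)` because
`KK - 2 hh (M + 1) = 2 hh M + 6 hh`. -/
theorem ParH.tl_top (h : ParH m n q M b) :
    tl b (KK q M) (hh q M) (M + 1) ≤ 1 / b ^ (6 * hh q M) := by
  have hb := h.hb3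
  have h0 : 0 < b := by linarith
  unfold tl KK
  rw [div_le_div_iff₀ (by positivity) (by positivity), one_mul, ← pow_add]
  apply pow_le_pow_right₀ (by linarith)
  nlinarith [Nat.zero_le (hh q M * M)]

/-- The base `√(n+1) * (2 (n+1) b^4 * t)` is at most `b ^ 7 / b ^ (6 hh) ≤ 1 / b ^ (5 hh) ≤ 1` (`Par.coef`,
`tl_top`, `hh ≥ 7`), the exponent `n + 2 - s` is at least `2 ^ M + 1 ≥ q`, so the power is at most
`1 / b ^ (5 hh q) ≤ 1 / b ^ (130000 q ^ 2)`; `(m + 3) ^ (n + 1) ≤ b ^ (2 n + 2)`, `n + 1 ≤ b`, and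
`2 n + 3 + n + 2 ≤ 130000 q ^ 2`. -/
theorem ParH.glob (h : ParH m n q M b) {s : ℕ} (hs : s + 2 ^ M ≤ n + 1) :
    ((m + 3 : ℕ) : ℝ) ^ (n + 1) * ((n + 1 : ℕ) * (√(n + 1 : ℕ) *
      (2 * (n + 1 : ℕ) * b ^ 4 * tl b (KK q M) (hh q M) (M + 1))) ^ (n + 2 - s)) ≤
      1 / b ^ (n + 2) := by
  obtain ⟨q', h'⟩ := h.par
  have hb := h.hb3
  have h0 : 0 < b := by linarith
  have h1 : 1 ≤ b := by linarith
  have hq := h.hq
  have hh1 : 26000 * q ≤ hh q M := by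
    unfold hh
    nlinarith [Nat.zero_le (M * q)]
  have hh7 : 7 ≤ hh q M := by omega
  have htl0 : 0 ≤ tl b (KK q M) (hh q M) (M + 1) := by unfold tl; positivity
  have hy : √(n + 1 : ℕ) *
      (2 * (n + 1 : ℕ) * b ^ 4 * tl b (KK q M) (hh q M) (M + 1)) ≤ 1 / b ^ (5 * hh q M) := by
    have e2 : √(n + 1 : ℕ) * (2 * (n + 1 : ℕ) * b ^ 4 * tl b (KK q M) (hh q M) (M + 1)) =
      (√(n + 1 : ℕ) * (2 * (n + 1 : ℕ) * b ^ 4)) * tl b (KK q M) (hh q M) (M + 1) := by ring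
    rw [e2]
    calc (√(n + 1 : ℕ) * (2 * (n + 1 : ℕ) * b ^ 4)) * tl b (KK q M) (hh q M) (M + 1) ≤
          b ^ 7 * (1 / b ^ (6 * hh q M)) :=
          mul_le_mul h'.coef h.tl_top htl0 (by positivity)
      _ ≤ 1 / b ^ (5 * hh q M) := by
          rw [mul_one_div, div_le_div_iff₀ (by positivity) (by positivity), one_mul, ← pow_add]
          apply pow_le_pow_right₀ h1
          omega
  have hy0 : 0 ≤ √(n + 1 : ℕ) *
      (2 * (n + 1 : ℕ) * b ^ 4 * tl b (KK q M) (hh q M) (M + 1)) := by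
    positivity
  have hle1 : 1 / b ^ (5 * hh q M) ≤ 1 := by
    rw [div_le_one (by positivity)]
    exact one_le_pow₀ h1
  have hM := h.hM1
  have hqs : q ≤ n + 2 - s := by omega
  have hpow : (√(n + 1 : ℕ) *
      (2 * (n + 1 : ℕ) * b ^ 4 * tl b (KK q M) (hh q M) (M + 1))) ^ (n + 2 - s) ≤
        1 / b ^ (130000 * q ^ 2) := by
    calc _ ≤ (1 / b ^ (5 * hh q M)) ^ (n + 2 - s) := pow_le_pow_left₀ hy0 hy _
      _ ≤ (1 / b ^ (5 * hh q M)) ^ q := pow_le_pow_of_le_one (by positivity) hle1 hqs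
      _ = 1 / b ^ (5 * hh q M * q) := by rw [div_pow, one_pow, ← pow_mul]
      _ ≤ 1 / b ^ (130000 * q ^ 2) := by
          apply one_div_le_one_div_of_le (by positivity)
          apply pow_le_pow_right₀ h1
          nlinarith [Nat.mul_le_mul_right q hh1]
  have hm3 := h'.m3
  have hn1 := h'.n1
  have hpos : (0 : ℝ) ≤ (√(n + 1 : ℕ) *
      (2 * (n + 1 : ℕ) * b ^ 4 * tl b (KK q M) (hh q M) (M + 1))) ^ (n + 2 - s) := by
    positivity
  calc _ ≤ (b ^ 2) ^ (n + 1) * (b * (1 / b ^ (130000 * q ^ 2))) := by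
        apply mul_le_mul (pow_le_pow_left₀ (by positivity) hm3 _) _ _ (by positivity)
        · exact mul_le_mul hn1 hpow hpos h0.le
        · exact mul_nonneg (by positivity) hpos
    _ = b ^ (2 * (n + 1) + 1) / b ^ (130000 * q ^ 2) := by rw [← pow_mul, pow_succ]; ring
    _ ≤ 1 / b ^ (n + 2) := by
        rw [div_le_div_iff₀ (by positivity) (by positivity), one_mul, ← pow_add]
        apply pow_le_pow_right₀ h1
        have hn := h.hn
        have hnq := h.hnq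
        omega

/-- As `Par.full`: `(m + 3) ^ (n + 1) (n + 1) √(n+1) 2 (n+1) b^4 ≤ b ^ (2 n + 2 + 1 + 7)`. -/
theorem ParH.full (h : ParH m n q M b) :
    ((m + 3 : ℕ) : ℝ) ^ (n + 1) * ((n + 1 : ℕ) * (√(n + 1 : ℕ) *
      (2 * (n + 1 : ℕ) * b ^ 4 * (1 / b ^ (3 * n + 20))))) ≤ 1 / b ^ (n + 2) := by
  obtain ⟨q', h'⟩ := h.par
  have hb := h.hb3
  have h0 : 0 < b := by linarith
  have h1 : 1 ≤ b := by linarith
  have e1 : ((m + 3 : ℕ) : ℝ) ^ (n + 1) * ((n + 1 : ℕ) * (√(n + 1 : ℕ) *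
      (2 * (n + 1 : ℕ) * b ^ 4 * (1 / b ^ (3 * n + 20))))) =
      ((m + 3 : ℕ) : ℝ) ^ (n + 1) * ((n + 1 : ℕ) * (√(n + 1 : ℕ) *
      (2 * (n + 1 : ℕ) * b ^ 4))) / b ^ (3 * n + 20) := by ring
  rw [e1, div_le_div_iff₀ (by positivity) (by positivity), one_mul]
  calc _ ≤ (b ^ 2) ^ (n + 1) * (b * b ^ 7) * b ^ (n + 2) := by
        apply mul_le_mul_of_nonneg_right _ (by positivity)
        apply mul_le_mul (pow_le_pow_left₀ (by positivity) h'.m3 _) _ (by positivity) (by positivity)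
        exact mul_le_mul h'.n1 h'.coef (by positivity) h0.le
    _ = b ^ (2 * (n + 1) + 8 + (n + 2)) := by rw [← pow_mul]; ring
    _ ≤ b ^ (3 * n + 20) := by
        apply pow_le_pow_right₀ h1
        omega

end Pool.Agent.Lib.MP_ab1b6f_lcH
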