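import Mathlib
import Pool.Agent.Lib.MP_ab1b6f_lcH.HPar

/-!
# The numerical estimate for the chains of one level  (leaf NumL)
-/

open scoped ENNReal

namespace Pool.Agent.Lib.MP_ab1b6f_lcH

open Pool.Agent.Lib.MP_ab1b6f_lc

private theorem NumL_b {m n q M : ℕ} {b : ℝ} (h : ParH m n q M b) :
    ((m + 3 : ℕ) : ℝ) ≤ b ^ 2 ∧ (m : ℝ) ≤ b ∧ ((48 * q + 1 : ℕ) : ℝ) ≤ b ^ 5 ∧
      ((n + 2 + 48 * q : ℕ) : ℝ) ≤ b ^ 5 ∧ ((n + 3 + 48 * q : ℕ) : ℝ) ≤ b ^ 5 ∧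
      5 * ((n + 1 : ℕ) : ℝ) ≤ b ^ 3 := by
  have hb := h.hb3
  have hn := h.hbn
  have hm := h.hbm
  have hq : (q : ℝ) ≤ n := by exact_mod_cast h.hqn
  have h2 : 3 * b ≤ b ^ 2 := by nlinarith
  have h3 : 9 * b ≤ b ^ 3 := by
    have e : b ^ 3 = b ^ 2 * b := by ring
    rw [e]
    nlinarith
  have h5 : 81 * b ≤ b ^ 5 := by
    have e : b ^ 5 = b ^ 3 * b ^ 2 := by ring
    rw [e]
    nlinarith
  refine ⟨?_, by linarith, ?_, ?_, ?_, ?_⟩ <;> push_cast <;> linarith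

private theorem NumL_root {q M : ℕ} {b : ℝ} (hb : 3 ≤ b) (k E : ℕ) :
    √((2 * b ^ 4) ^ k / (b ^ hh q M) ^ E) ≤ b ^ (3 * k) / b ^ (13000 * (M + 1) * q * E) := by
  have h0 : 0 < b := by linarith
  apply Real.sqrt_le_iff.2
  refine ⟨by positivity, ?_⟩
  have e1 : (b ^ hh q M) ^ E = b ^ (13000 * (M + 1) * q * E * 2) := by
    rw [← pow_mul]
    congr 1
    unfold hh
    ring
  have h1 : (2 * b ^ 4) ^ k ≤ b ^ (3 * k * 2) := by
    have h2 : 2 * b ^ 4 ≤ b ^ 6 := by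
      have h3 : (2 : ℝ) ≤ b ^ 2 := by nlinarith
      calc 2 * b ^ 4 ≤ b ^ 2 * b ^ 4 := mul_le_mul_of_nonneg_right h3 (by positivity)
        _ = b ^ 6 := by ring
    calc (2 * b ^ 4) ^ k ≤ (b ^ 6) ^ k := pow_le_pow_left₀ (by positivity) h2 k
      _ = b ^ (3 * k * 2) := by
        rw [← pow_mul]
        congr 1
        ring
  rw [e1, div_pow, ← pow_mul, ← pow_mul]
  exact div_le_div_of_nonneg_right h1 (by positivity)

private theorem NumL_term {m n q M : ℕ} {b : ℝ} (h : ParH m n q M b) {j : ℕ} (hj : j ≤ M) {k : ℕ}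
    (hk : k ≤ 48 * q) :
    (√((2 * b ^ 4) ^ k / (b ^ hh q M) ^ (Lq q M j + 1))) ^ (yy j + 1) *
      ((m : ℝ) * (((n + 2 + 48 * q : ℕ) : ℝ) * ((n + 3 + 48 * q : ℕ) : ℝ) ^ (50 * q) *
        (5 * ((n + 1 : ℕ) : ℝ)) ^ (yy j + 1))) ^ k ≤ b ^ (12864 * q ^ 2) / b ^ (13000 * q ^ 2) := by
  have hb := h.hb3
  have h0 : 0 < b := by linarith
  have h1 : 1 ≤ b := by linarith
  have hq := h.hq
  obtain ⟨-, hm, -, hn2, hn3, hn1⟩ := NumL_b h
  have hc : yy j + 1 ≤ 2 * q := by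
    have := yy_le_q h.hM2 hj
    omega
  have hE := Lq_mul q M j
  obtain ⟨c, hcc⟩ : ∃ c, c = yy j + 1 := ⟨_, rfl⟩
  obtain ⟨E, hEE⟩ : ∃ E, E = Lq q M j + 1 := ⟨_, rfl⟩
  rw [← hcc, ← hEE] at hE
  rw [← hcc] at hc
  rw [← hcc, ← hEE]
  have h2 : (√((2 * b ^ 4) ^ k / (b ^ hh q M) ^ E)) ^ c ≤ b ^ (3 * k * c) / b ^ (13000 * q ^ 2) := by
    calc (√((2 * b ^ 4) ^ k / (b ^ hh q M) ^ E)) ^ c ≤ (b ^ (3 * k) / b ^ (13000 * (M + 1) * q * E)) ^ c :=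
          pow_le_pow_left₀ (Real.sqrt_nonneg _) (NumL_root hb k E) c
      _ = b ^ (3 * k * c) / b ^ (13000 * (M + 1) * q * E * c) := by rw [div_pow, ← pow_mul, ← pow_mul]
      _ ≤ b ^ (3 * k * c) / b ^ (13000 * q ^ 2) := by
          refine div_le_div_of_nonneg_left (by positivity) (by positivity) (pow_le_pow_right₀ h1 ?_)
          calc 13000 * q ^ 2 = 13000 * q * q := by ring
            _ ≤ 13000 * q * (E * c * (M + 1)) := Nat.mul_le_mul_left _ hE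
            _ = 13000 * (M + 1) * q * E * c := by ring
  have h3 : ((m : ℝ) * (((n + 2 + 48 * q : ℕ) : ℝ) * ((n + 3 + 48 * q : ℕ) : ℝ) ^ (50 * q) *
        (5 * ((n + 1 : ℕ) : ℝ)) ^ c)) ^ k ≤ b ^ ((6 + 250 * q + 3 * c) * k) := by
    have h4 : (m : ℝ) * (((n + 2 + 48 * q : ℕ) : ℝ) * ((n + 3 + 48 * q : ℕ) : ℝ) ^ (50 * q) *
        (5 * ((n + 1 : ℕ) : ℝ)) ^ c) ≤ b * (b ^ 5 * (b ^ 5) ^ (50 * q) * (b ^ 3) ^ c) := by
      refine mul_le_mul hm ?_ (by positivity) h0.le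
      refine mul_le_mul ?_ (pow_le_pow_left₀ (by positivity) hn1 c) (by positivity) (by positivity)
      exact mul_le_mul hn2 (pow_le_pow_left₀ (by positivity) hn3 _) (by positivity) (by positivity)
    calc _ ≤ (b * (b ^ 5 * (b ^ 5) ^ (50 * q) * (b ^ 3) ^ c)) ^ k := pow_le_pow_left₀ (by positivity) h4 k
      _ = b ^ ((6 + 250 * q + 3 * c) * k) := by
          have e : b * (b ^ 5 * (b ^ 5) ^ (50 * q) * (b ^ 3) ^ c) = b ^ (6 + 250 * q + 3 * c) := by ring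
          rw [e, ← pow_mul]
  have h5 : 3 * k * c + (6 + 250 * q + 3 * c) * k ≤ 12864 * q ^ 2 := by
    have h6 : 3 * k * c ≤ 3 * (48 * q) * (2 * q) := Nat.mul_le_mul (Nat.mul_le_mul_left _ hk) hc
    have h7 : 6 + 250 * q + 3 * c ≤ 262 * q := by omega
    have h8 : (6 + 250 * q + 3 * c) * k ≤ 262 * q * (48 * q) := Nat.mul_le_mul h7 hk
    have h9 : 3 * (48 * q) * (2 * q) + 262 * q * (48 * q) = 12864 * q ^ 2 := by ring
    omega
  calc _ ≤ b ^ (3 * k * c) / b ^ (13000 * q ^ 2) * b ^ ((6 + 250 * q + 3 * c) * k) :=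
        mul_le_mul h2 h3 (by positivity) (by positivity)
    _ = b ^ (3 * k * c + (6 + 250 * q + 3 * c) * k) / b ^ (13000 * q ^ 2) := by
        rw [pow_add]
        ring
    _ ≤ b ^ (12864 * q ^ 2) / b ^ (13000 * q ^ 2) :=
        div_le_div_of_nonneg_right (pow_le_pow_right₀ h1 h5) (by positivity)

private theorem NumL_real {m n q M : ℕ} {b : ℝ} (h : ParH m n q M b) {j : ℕ} (hj : j ≤ M) :
    ((m + 3 : ℕ) : ℝ) ^ (n + 2) * ∑ k ∈ Finset.range (48 * q + 1),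
        (√((2 * b ^ 4) ^ k / (b ^ hh q M) ^ (Lq q M j + 1))) ^ (yy j + 1) *
          ((m : ℝ) * (((n + 2 + 48 * q : ℕ) : ℝ) * ((n + 3 + 48 * q : ℕ) : ℝ) ^ (50 * q) *
            (5 * ((n + 1 : ℕ) : ℝ)) ^ (yy j + 1))) ^ k ≤ 1 / b ^ (n + 4) := by
  have hb := h.hb3
  have h0 : 0 < b := by linarith
  have h1 : 1 ≤ b := by linarith
  have hq := h.hq
  obtain ⟨hm3, -, hq1, -, -, -⟩ := NumL_b h
  have h2 : ∑ k ∈ Finset.range (48 * q + 1),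
        (√((2 * b ^ 4) ^ k / (b ^ hh q M) ^ (Lq q M j + 1))) ^ (yy j + 1) *
          ((m : ℝ) * (((n + 2 + 48 * q : ℕ) : ℝ) * ((n + 3 + 48 * q : ℕ) : ℝ) ^ (50 * q) *
            (5 * ((n + 1 : ℕ) : ℝ)) ^ (yy j + 1))) ^ k ≤
      b ^ 5 * (b ^ (12864 * q ^ 2) / b ^ (13000 * q ^ 2)) := by
    calc _ ≤ ∑ k ∈ Finset.range (48 * q + 1), b ^ (12864 * q ^ 2) / b ^ (13000 * q ^ 2) :=
          Finset.sum_le_sum fun k hk => NumL_term h hj (by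
            rw [Finset.mem_range] at hk
            omega)
      _ = ((48 * q + 1 : ℕ) : ℝ) * (b ^ (12864 * q ^ 2) / b ^ (13000 * q ^ 2)) := by
          rw [Finset.sum_const, nsmul_eq_mul, Finset.card_range]
      _ ≤ _ := mul_le_mul_of_nonneg_right hq1 (by positivity)
  calc _ ≤ (b ^ 2) ^ (n + 2) * (b ^ 5 * (b ^ (12864 * q ^ 2) / b ^ (13000 * q ^ 2))) :=
        mul_le_mul (pow_le_pow_left₀ (by positivity) hm3 _) h2
          (Finset.sum_nonneg fun k _ => by positivity) (by positivity)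
    _ = b ^ (2 * (n + 2) + 5 + 12864 * q ^ 2) / b ^ (13000 * q ^ 2) := by
        rw [← pow_mul, pow_add, pow_add]
        ring
    _ ≤ 1 / b ^ (n + 4) := by
        rw [div_le_div_iff₀ (by positivity) (by positivity), one_mul, ← pow_add]
        refine pow_le_pow_right₀ h1 ?_
        have h3 := h.hnq
        have h4 : 1 ≤ q ^ 2 := Nat.one_le_pow _ _ hq
        omega

/-- Let `c = yy j + 1 ≤ 2 q`, `E = Lq q M j + 1`, `h = 26000 (M + 1) q`, so `13000 (M + 1) q E c ≥ 13000 q ^ 2`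
(`Lq_mul`). Everything in powers of `b` (`m + 3 ≤ b ^ 2`; `q ≤ n ≤ b`, so `48 q + 1 ≤ b ^ 5`,
`n + 2 + 48 q ≤ n + 3 + 48 q ≤ 50 b ≤ b ^ 5`, `5 (n + 1) ≤ b ^ 3`, `m ≤ b`):
`(m + 3) ^ (n + 2) ≤ b ^ (2 n + 4)`; for each `k ≤ 48 q`:
`√((2 b ^ 4) ^ k / (b ^ h) ^ E) ≤ b ^ (3 k) / b ^ (13000 (M + 1) q E)`
(`2 b ^ 4 ≤ b ^ 6`), its `c`-th power is at most `b ^ (288 q ^ 2) / b ^ (13000 q ^ 2)`, and the other factor is at
most `(b * (b ^ 5 * b ^ (250 q) * b ^ (3 c))) ^ k ≤ b ^ ((6 + 250 q + 6 q) 48 q) ≤ b ^ (12576 q ^ 2)`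
(`q ≥ 1`: `6 + 256 q ≤ 262 q`). The sum has `48 q + 1` terms. Total exponent:
`2 n + 4 + 5 + 288 q ^ 2 + 12576 q ^ 2 - 13000 q ^ 2 ≤ - (n + 4)`
(`3 n + 13 ≤ 16 q ^ 2`, and `16 + 288 + 12576 = 12880 ≤ 13000`). -/
theorem lev_num {m n q M : ℕ} {b : ℝ} (h : ParH m n q M b) {j : ℕ} (hj : j ≤ M) :
    ((m + 3 : ℕ) : ℝ≥0∞) ^ (n + 2) * ∑ k ∈ Finset.range (48 * q + 1),
        (ENNReal.ofReal (√((2 * b ^ 4) ^ k / (b ^ hh q M) ^ (Lq q M j + 1)))) ^ (yy j + 1) *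
          ((m : ℝ≥0∞) * (((n + 2 + 48 * q : ℕ) : ℝ≥0∞) *
            ((n + 3 + 48 * q : ℕ) : ℝ≥0∞) ^ (50 * q) *
            (5 * ((n + 1 : ℕ) : ℝ≥0∞)) ^ (yy j + 1))) ^ k ≤ ENNReal.ofReal (1 / b ^ (n + 4)) := by
  refine le_trans (le_of_eq ?_) (ENNReal.ofReal_le_ofReal (NumL_real h hj))
  have hb := h.hb3
  have h0 : 0 < b := by linarith
  have e5 : (5 : ℝ≥0∞) = ENNReal.ofReal 5 := by
    rw [ENNReal.ofReal_ofNat]
  rw [ENNReal.ofReal_mul (by positivity), ENNReal.ofReal_pow (by positivity), ENNReal.ofReal_natCast,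
    ENNReal.ofReal_sum_of_nonneg (fun k _ => by positivity)]
  congr 1
  refine Finset.sum_congr rfl fun k _ => ?_
  rw [ENNReal.ofReal_mul (by positivity), ENNReal.ofReal_pow (Real.sqrt_nonneg _), ENNReal.ofReal_pow (by positivity),
    ENNReal.ofReal_mul (by positivity), ENNReal.ofReal_mul (by positivity), ENNReal.ofReal_mul (by positivity),
    ENNReal.ofReal_pow (by positivity), ENNReal.ofReal_pow (by positivity), ENNReal.ofReal_mul (by positivity),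
    ENNReal.ofReal_natCast, ENNReal.ofReal_natCast, ENNReal.ofReal_natCast, ENNReal.ofReal_natCast, ← e5]

end Pool.Agent.Lib.MP_ab1b6f_lcH
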