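import Mathlib
import Pool.Agent.Lib.MP_ab1b6f_lc.EventProb
import Pool.Agent.Lib.MP_ab1b6f_lcH.HChR
import Pool.Agent.Lib.MP_ab1b6f_lcH.HLev
import Pool.Agent.Lib.MP_ab1b6f_lcH.HNumL
import Pool.Agent.Lib.MP_ab1b6f_lcH.HNumG

/-!
# The probability of the good event
-/

open scoped ENNReal
open MeasureTheory ProbabilityTheory

namespace Pool.Agent.Lib.MP_ab1b6f_lcH

open Pool.Agent.Lib.MP_ab1b6f_lc

variable {m n q M : ℕ} {b : ℝ}

/-- The good event. -/
def GoodEvH (c : Pt n) (q M : ℕ) (b : ℝ) (D : Data m n) : Prop :=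
  LevEv (fam D c) (rnd m) (fixed m) n q M (KK q M) (hh q M) b (b ^ 4) ∧
    ∀ S : Finset (Idx m), S.card = n + 1 → Ind (fam D c) S (1 / b ^ (3 * n + 20))

theorem event_prob_H (h : ParH m n q M b) {c : Pt n} (hc : c ≠ 0) (μ : Fin m → Fin (n + 1) → ℝ)
    (hμ : ∀ i j, |μ i j| ≤ b) :
    (Measure.pi fun i => Measure.pi fun j => gaussianReal (μ i j) 1)
      {D : Data m n | ¬ GoodEvH c q M b D} ≤ ENNReal.ofReal (1 / b ^ n) := by
  classical
  obtain ⟨q', hpar⟩ := h.par
  have hb := h.hb3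
  have h0 : 0 < b := by linarith
  have h1 : 1 ≤ b := by linarith
  have hq := h.hq
  have hM2 := h.hM2
  have hb4 : (1 : ℝ) ≤ b ^ 4 := one_le_pow₀ h1
  set P := (Measure.pi fun i => Measure.pi fun j => gaussianReal (μ i j) 1 :
    Measure (Fin m → Fin (n + 1) → ℝ)) with hP
  set E1 : Set (Data m n) := {ω | ∃ i ∈ rnd m, b ^ 4 < ‖famE (fixv c) ω i‖} with hE1
  set T2 := (Finset.univ : Finset (Finset (Idx m))).filter
    (fun S => S.card + 2 ^ M ≤ n + 1) with hT2
  set T3 := (Finset.univ : Finset (Finset (Idx m))).filter (fun S => S.card = n + 1) with hT3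
  set E2 : Set (Data m n) := {ω | (∀ i ∈ rnd m, ‖famE (fixv c) ω i‖ ≤ b ^ 4) ∧
        ∃ S ∈ T2, ¬ Ind (famE (fixv c) ω) S (tl b (KK q M) (hh q M) (M + 1))} with hE2
  set E3 : Set (Data m n) := {ω | (∀ i ∈ rnd m, ‖famE (fixv c) ω i‖ ≤ b ^ 4) ∧
        ∃ S ∈ T3, ¬ Ind (famE (fixv c) ω) S (1 / b ^ (3 * n + 20))} with hE3
  set E4 : ℕ → Set (Data m n) := fun j => {ω | ∃ S0 : Finset (Idx m), S0.card ≤ n + 2 ∧
      ∃ (k : ℕ) (U : Finset (Idx m)) (p : ℝ), k ≤ 48 * q ∧
        Reach (famE (fixv c) ω) (rnd m) S0 (50 * q) (n - yy j) k U p ∧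
          p * (b ^ hh q M) ^ (Lq q M j + 1) ≤ (2 * b ^ 4) ^ k} with hE4
  have hKK : 2 * hh q M * (M + 1) ≤ KK q M := by
    unfold KK
    nlinarith [Nat.zero_le (hh q M), Nat.zero_le M, Nat.zero_le (hh q M * M)]
  have hcover : {D : Data m n | ¬ GoodEvH c q M b D} ⊆
      E1 ∪ (E2 ∪ (E3 ∪ ⋃ j ∈ Finset.range (M + 1), E4 j)) := by
    intro D hD
    by_contra hcon
    simp only [Set.mem_union, not_or] at hcon
    obtain ⟨n1, n2, n3, n4⟩ := hcon
    have hnorm : ∀ i ∈ rnd m, ‖famE (fixv c) D i‖ ≤ b ^ 4 := by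
      intro i hi
      by_contra hlt
      exact n1 ⟨i, hi, not_le.1 hlt⟩
    have hglob : ∀ O : Finset (Idx m), O.card + 2 ^ M ≤ n + 1 →
        Ind (famE (fixv c) D) O (tl b (KK q M) (hh q M) (M + 1)) := by
      intro S hS
      by_contra hbad
      exact n2 ⟨hnorm, S, Finset.mem_filter.2 ⟨Finset.mem_univ _, hS⟩, hbad⟩
    apply hD
    refine ⟨⟨hnorm, hglob, ?_⟩, ?_⟩
    · intro S0 hS0 hfx j hj e U hU hUc
      by_contra hle
      obtain ⟨U', hU', hch⟩ := hU.initial (e' := Lq q M j + 1) (by omega)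
      have hyq := yy_le_q hM2 hj
      obtain ⟨k, p, hk, hr, hp⟩ := ch_reach (rnd := rnd m) (Q := 50 * q) (R := b ^ 4) h1 hb4
        (fun i hi => by
          rcases i with i | i
          · exact mem_rnd.2 ⟨i, rfl⟩
          · exact absurd (mem_fixed.2 ⟨i, rfl⟩) hi) hfx hS0 hnorm hglob hj hKK
        (hyq.trans h.hqn) (by omega) hch
        ((Finset.card_le_card (Finset.sdiff_subset_sdiff hU' (Finset.Subset.refl _))).trans hUc)
      refine n4 ?_
      simp only [Set.mem_iUnion]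
      exact ⟨j, Finset.mem_range.2 (by omega), S0, hS0, k, U', p, hk, hr, hp⟩
    · intro S hS
      by_contra hbad
      exact n3 ⟨hnorm, S, Finset.mem_filter.2 ⟨Finset.mem_univ _, hS⟩, hbad⟩
  have hcardle : ∀ T : Finset (Finset (Idx m)), (∀ S ∈ T, S.card ≤ n + 1) →
      (T.card : ℝ) ≤ ((m + 3 : ℕ) : ℝ) ^ (n + 1) := by
    intro T hT
    have hsub : T ⊆ (Finset.univ : Finset (Finset (Idx m))).filter (fun S => S.card ≤ n + 1) :=
      fun S hS => Finset.mem_filter.2 ⟨Finset.mem_univ _, hT S hS⟩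
    have := (Finset.card_le_card hsub).trans (card_sets_le (n + 1))
    exact_mod_cast this
  have hhq : 26000 ≤ hh q M := by
    unfold hh
    have : 1 ≤ (M + 1) * q := Nat.mul_pos (Nat.succ_pos M) hq
    nlinarith
  have htl0 : 0 < tl b (KK q M) (hh q M) (M + 1) := by unfold tl; positivity
  have htl : tl b (KK q M) (hh q M) (M + 1) ≤ 1 / 2 := by
    refine h.tl_top.trans ?_
    rw [div_le_div_iff₀ (by positivity) (by norm_num), one_mul, one_mul]
    calc (2 : ℝ) ≤ b ^ 1 := by rw [pow_one]; linarith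
      _ ≤ b ^ (6 * hh q M) := pow_le_pow_right₀ h1 (by omega)
  have p1 : P E1 ≤ ENNReal.ofReal (1 / b ^ (n + 2)) := by
    have := norm_prob μ (fixv c) (M := b) (t := b ^ 3) (R := b ^ 4) hμ (by positivity)
      hpar.norm_bound
    refine this.trans ?_
    refine le_trans (le_of_eq ?_) (ENNReal.ofReal_le_ofReal hpar.exp_bound)
    rw [ENNReal.ofReal_mul (p := (m : ℝ) * ((n + 1 : ℕ) : ℝ)) (by positivity),
      ENNReal.ofReal_mul (p := (m : ℝ)) (by positivity),
      ENNReal.ofReal_natCast, ENNReal.ofReal_natCast]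
  have hm3 : (0 : ℝ) < ((m + 3 : ℕ) : ℝ) ^ (n + 1) := by positivity
  have p2 : P E2 ≤ ENNReal.ofReal (1 / b ^ (n + 2)) := by
    have hcardT : ∀ S ∈ T2, S.card + 2 ^ M ≤ n + 1 := fun S hS => (Finset.mem_filter.1 hS).2
    have := sets_prob (b := b) μ hc h1 T2 (fun S hS => (Nat.le_add_right _ _).trans (hcardT S hS))
      (fun _ => tl b (KK q M) (hh q M) (M + 1))
      (B := 1 / b ^ (n + 2) / ((m + 3 : ℕ) : ℝ) ^ (n + 1))
      (fun S hS => htl0) (fun S hS => htl)
      (fun S hS => by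
        rw [le_div_iff₀ (by positivity), mul_comm]
        exact h.glob (hcardT S hS))
    refine this.trans (ENNReal.ofReal_le_ofReal ?_)
    have hc2 := hcardle T2 (fun S hS => (Nat.le_add_right _ _).trans (hcardT S hS))
    calc (T2.card : ℝ) * (1 / b ^ (n + 2) / ((m + 3 : ℕ) : ℝ) ^ (n + 1)) ≤
          ((m + 3 : ℕ) : ℝ) ^ (n + 1) * (1 / b ^ (n + 2) / ((m + 3 : ℕ) : ℝ) ^ (n + 1)) :=
          mul_le_mul_of_nonneg_right hc2 (by positivity)
      _ = 1 / b ^ (n + 2) := by field_simp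
  have p3 : P E3 ≤ ENNReal.ofReal (1 / b ^ (n + 2)) := by
    have hcardT : ∀ S ∈ T3, S.card = n + 1 := fun S hS => (Finset.mem_filter.1 hS).2
    have := sets_prob (b := b) μ hc h1 T3 (fun S hS => (hcardT S hS).le)
        (fun _ => 1 / b ^ (3 * n + 20))
        (B := 1 / b ^ (n + 2) / ((m + 3 : ℕ) : ℝ) ^ (n + 1))
        (fun S hS => by positivity)
        (fun S hS => by
          rw [div_le_div_iff₀ (by positivity) (by norm_num), one_mul, one_mul]
          calc (2 : ℝ) ≤ b ^ 1 := by rw [pow_one]; linarith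
            _ ≤ _ := pow_le_pow_right₀ h1 (by omega))
        (fun S hS => by
          rw [hcardT S hS, show n + 2 - (n + 1) = 1 by omega, pow_one,
            le_div_iff₀ (by positivity), mul_comm]
          exact h.full)
    refine this.trans (ENNReal.ofReal_le_ofReal ?_)
    have hc2 := hcardle T3 (fun S hS => (hcardT S hS).le)
    calc (T3.card : ℝ) * (1 / b ^ (n + 2) / ((m + 3 : ℕ) : ℝ) ^ (n + 1)) ≤
          ((m + 3 : ℕ) : ℝ) ^ (n + 1) * (1 / b ^ (n + 2) / ((m + 3 : ℕ) : ℝ) ^ (n + 1)) :=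
          mul_le_mul_of_nonneg_right hc2 (by positivity)
      _ = 1 / b ^ (n + 2) := by field_simp
  have p4 : P (⋃ j ∈ Finset.range (M + 1), E4 j) ≤ ENNReal.ofReal (1 / b ^ (n + 2)) := by
    refine (measure_biUnion_finset_le _ _).trans ?_
    have hone : ∀ j ∈ Finset.range (M + 1), P (E4 j) ≤ ENNReal.ofReal (1 / b ^ (n + 4)) := by
      intro j hj
      have hj' : j ≤ M := by
        have := Finset.mem_range.1 hj
        omega
      have hyq := yy_le_q hM2 hj'
      have := lev_prob (fun i j => gaussianReal (μ i j) 1) (fun i j => gaussian_SB _) (fixv c)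
        (48 * q) (50 * q) (yy j) (Lq q M j + 1) (hh q M) (hyq.trans h.hqn) (b := b) (R := b ^ 4)
        h1 hb4
      exact this.trans (lev_num h hj')
    refine (Finset.sum_le_sum hone).trans ?_
    rw [Finset.sum_const, Finset.card_range, nsmul_eq_mul, ← ENNReal.ofReal_natCast,
      ← ENNReal.ofReal_mul (by positivity)]
    apply ENNReal.ofReal_le_ofReal
    rw [pow_add, mul_one_div, pow_add, div_le_div_iff₀ (by positivity) (by positivity), one_mul]
    have hMb : ((M + 1 : ℕ) : ℝ) ≤ b ^ 2 := by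
      have h5 := M_le hM2
      have h6 : ((M + 1 : ℕ) : ℝ) ≤ 2 * (q : ℝ) := by exact_mod_cast h5
      have h7 : (q : ℝ) ≤ n := by exact_mod_cast h.hqn
      have h8 := h.hbn
      nlinarith
    calc ((M + 1 : ℕ) : ℝ) * (b ^ n * b ^ 2) ≤ b ^ 2 * (b ^ n * b ^ 2) :=
          mul_le_mul_of_nonneg_right hMb (by positivity)
      _ = b ^ n * b ^ 4 := by ring
  calc P {D : Data m n | ¬ GoodEvH c q M b D} ≤
        P (E1 ∪ (E2 ∪ (E3 ∪ ⋃ j ∈ Finset.range (M + 1), E4 j))) := measure_mono hcover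
    _ ≤ P E1 + (P E2 + (P E3 + P (⋃ j ∈ Finset.range (M + 1), E4 j))) :=
        (measure_union_le _ _).trans (add_le_add le_rfl ((measure_union_le _ _).trans
          (add_le_add le_rfl (measure_union_le _ _))))
    _ ≤ ENNReal.ofReal (1 / b ^ (n + 2)) + (ENNReal.ofReal (1 / b ^ (n + 2)) +
        (ENNReal.ofReal (1 / b ^ (n + 2)) + ENNReal.ofReal (1 / b ^ (n + 2)))) :=
        add_le_add p1 (add_le_add p2 (add_le_add p3 p4))
    _ = ENNReal.ofReal (4 * (1 / b ^ (n + 2))) := by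
        rw [← ENNReal.ofReal_add (by positivity) (by positivity),
          ← ENNReal.ofReal_add (by positivity) (by positivity),
          ← ENNReal.ofReal_add (by positivity) (by positivity)]
        congr 1; ring
    _ ≤ ENNReal.ofReal (1 / b ^ n) := by
        apply ENNReal.ofReal_le_ofReal
        rw [pow_add, mul_one_div, div_le_div_iff₀ (by positivity) (by positivity), one_mul]
        have : (4 : ℝ) ≤ b ^ 2 := by nlinarith
        nlinarith [pow_pos h0 n]

end Pool.Agent.Lib.MP_ab1b6f_lcH
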