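import Mathlib
import Pool.Agent.Lib.MP_ab1b6f_lc.Scale
import Pool.Agent.Lib.MP_ab1b6f_lcH.HDet
import Pool.Agent.Lib.MP_ab1b6f_lcH.HEvent

/-!
# The final bound for increasing paths
-/

open scoped ENNReal NNReal
open MeasureTheory ProbabilityTheory

namespace Pool.Agent.Lib.MP_ab1b6f_lcH

open Pool.Agent.Lib.MP_ab1b6f_lc

/-- The main theorem. -/
theorem main : ∃ C : ℝ, ∀ (m n : ℕ) (σ : ℝ≥0) (Dbar : Data m n) (c : Pt n), 0 < σ →
    ∑ i, ∑ j, Dbar i j ^ 2 ≤ 1 →
    ∃ g : Data m n → ℝ≥0∞, Measurable g ∧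
      (∀ (D : Data m n) (l : ℕ) (x : ℕ → Pt n),
        (∀ i < l, BetterNbr (poly D) c (x i) (x (i + 1))) → (l : ℝ≥0∞) ≤ g D) ∧
      (∀ (D : Data m n) (p : Pt n → Pt n → ℝ≥0∞) (v : Pt n),
        (Greedy (poly D) c p ∨ Steepest (poly D) c p ∨ Random (poly D) c p) → pathLen p v ≤ g D) ∧
      ∫⁻ D, g D ∂(law Dbar σ) ≤
        ENNReal.ofReal (((m + n + 2) * (1 + 1 / (σ : ℝ))) ^
          (C * √(n : ℝ) * (1 + Real.log n) ^ 2)) := by
  refine ⟨10000000, ?_⟩
  intro m n σ Dbar c hσ hD
  -- it is enough to bound the paths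
  suffices hmain : ∃ g : Data m n → ℝ≥0∞, Measurable g ∧
      (∀ (D : Data m n) (l : ℕ) (x : ℕ → Pt n),
        IncPath (poly D) c l x → (l : ℝ≥0∞) ≤ g D) ∧
      ∫⁻ D, g D ∂(law Dbar σ) ≤
        ENNReal.ofReal (((m + n + 2) * (1 + 1 / (σ : ℝ))) ^
          (10000000 * √(n : ℝ) * (1 + Real.log n) ^ 2)) by
    obtain ⟨g, hg1, hg2, hg3⟩ := hmain
    refine ⟨g, hg1, hg2, fun D p v hp => ?_, hg3⟩
    have hr : Rule (poly D) c p := hp
    exact pathLen_le_of_path hr.mass (fun v w hw => hr.nbr hw) (hg2 D) v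
  by_cases hcase : n = 0 ∨ c = 0
  · refine ⟨0, measurable_const, ?_, by simp⟩
    intro D l x hx
    rcases Nat.eq_zero_or_pos l with rfl | hl
    · simp
    · exfalso
      have hb := hx 0 hl
      rcases hcase with h | h
      · subst h
        exact hb.1 (Subsingleton.elim _ _)
      · have := hb.2.2.2.2
        rw [h] at this
        simp at this
  push Not at hcase
  obtain ⟨hn0, hc⟩ := hcase
  have hn : 1 ≤ n := Nat.one_le_iff_ne_zero.2 hn0
  obtain ⟨q, M, hq1, hnq, hqn, hM1, hM2, hqr, hMr⟩ := exists_qM n hn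
  have hσr : (0 : ℝ) < σ := by exact_mod_cast hσ
  set b : ℝ := (m + n + 2) * (1 + 1 / (σ : ℝ)) with hb
  have hinv : 0 < 1 / (σ : ℝ) := by positivity
  have hmn : (3 : ℝ) ≤ m + n + 2 := by
    have : (1 : ℝ) ≤ n := by exact_mod_cast hn
    have : (0 : ℝ) ≤ m := by positivity
    linarith
  have hbmn : (m : ℝ) + n + 2 ≤ b := by
    rw [hb]; nlinarith
  have hpar : ParH m n q M b := by
    refine ⟨hn, hq1, hnq, hqn, hM1, hM2, by linarith, ?_, ?_⟩
    · have : (0 : ℝ) ≤ m := by positivity
      linarith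
    · have : (0 : ℝ) ≤ n := by positivity
      linarith
  have h3 := hpar.hb3
  have h0 : 0 < b := by linarith
  have h1 : 1 ≤ b := by linarith
  set T : Data m n → Data m n := fun D i j => D i j / (σ : ℝ) with hT
  have hTm : Measurable T := by
    rw [hT]
    fun_prop
  set P := (Measure.pi fun i => Measure.pi fun j => gaussianReal (Dbar i j / (σ : ℝ)) 1 :
    Measure (Data m n)) with hP
  have hmap : (law Dbar σ).map T = P := law_scale Dbar hσ
  have hprob := event_prob_H hpar hc (fun i j => Dbar i j / (σ : ℝ)) (fun i j => by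
    have h2 : Dbar i j ^ 2 ≤ 1 := by
      refine le_trans ?_ hD
      calc Dbar i j ^ 2 ≤ ∑ j, Dbar i j ^ 2 :=
            Finset.single_le_sum (f := fun j => Dbar i j ^ 2) (fun j _ => sq_nonneg _)
              (Finset.mem_univ j)
        _ ≤ _ := Finset.single_le_sum (f := fun i => ∑ j, Dbar i j ^ 2)
              (fun i _ => Finset.sum_nonneg fun j _ => sq_nonneg _) (Finset.mem_univ i)
    have h3 : |Dbar i j| ≤ 1 := by
      rw [← abs_one]; exact sq_le_sq.1 (by simpa using h2)
    rw [abs_div, abs_of_pos hσr, div_le_iff₀ hσr]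
    have h4 : 1 ≤ b * σ := by
      rw [hb]
      have : (1 + 1 / (σ : ℝ)) * σ = σ + 1 := by field_simp
      rw [mul_assoc, this]
      nlinarith
    linarith)
  rw [← hP] at hprob
  set E : Set (Data m n) := {D | ¬ GoodEvH c q M b D} with hE
  set E' := toMeasurable P E with hE'
  have hE'm : MeasurableSet E' := measurableSet_toMeasurable _ _
  have hE'P : P E' ≤ ENNReal.ofReal (1 / b ^ n) := by rw [hE', measure_toMeasurable]; exact hprob
  set g : Data m n → ℝ≥0∞ := fun D => ENNReal.ofReal (b ^ (4 * KK q M)) +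
    (T ⁻¹' E').indicator (fun _ => (m : ℝ≥0∞) ^ n) D with hg
  have hEm : MeasurableSet (T ⁻¹' E') := hTm hE'm
  refine ⟨g, ?_, ?_, ?_⟩
  · exact (measurable_const : Measurable fun _ : Data m n =>
      ENNReal.ofReal (b ^ (4 * KK q M))).add ((measurable_const : Measurable fun _ : Data m n =>
        (m : ℝ≥0∞) ^ n).indicator hEm)
  · intro D l x hx
    have hxT : IncPath (poly (T D)) c l x := by
      have : poly (T D) = poly D := poly_scale D hσr
      rw [this]; exact hx
    by_cases hDE : T D ∈ E'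
    · have h2 := path_trivial hxT
      have h2' : (l : ℝ≥0∞) ≤ (m : ℝ≥0∞) ^ n := by exact_mod_cast h2
      refine h2'.trans ?_
      have hmem : D ∈ T ⁻¹' E' := hDE
      simp only [hg]
      rw [Set.indicator_of_mem hmem]
      exact le_add_self
    · have hgood : GoodEvH c q M b (T D) := by
        by_contra hbad
        exact hDE (subset_toMeasurable P E hbad)
      have hS : IsSimple (T D) := isSimple_of_ind (θ := 1 / b ^ (3 * n + 20)) (by positivity)
        hgood.2
      have h2 := det_path hc hpar hgood.1 hS hxT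
      have h2' : (l : ℝ≥0∞) ≤ ENNReal.ofReal (b ^ (4 * KK q M)) := by
        rw [← ENNReal.ofReal_natCast]
        exact ENNReal.ofReal_le_ofReal h2
      refine h2'.trans ?_
      simp only [hg]
      exact le_self_add
  · have hprobL : IsProbabilityMeasure (law Dbar σ) := by unfold law; infer_instance
    have hmeas : (law Dbar σ) (T ⁻¹' E') = P E' := by
      rw [← hmap, Measure.map_apply hTm hE'm]
    calc ∫⁻ D, g D ∂(law Dbar σ) = ENNReal.ofReal (b ^ (4 * KK q M)) +
          (m : ℝ≥0∞) ^ n * P E' := by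
          simp only [hg]
          rw [lintegral_add_left measurable_const, lintegral_const, measure_univ, mul_one,
            lintegral_indicator_const hEm, hmeas]
      _ ≤ ENNReal.ofReal (b ^ (4 * KK q M)) + ENNReal.ofReal 1 := by
          apply add_le_add le_rfl
          calc (m : ℝ≥0∞) ^ n * P E' ≤ ENNReal.ofReal (b ^ n) * ENNReal.ofReal (1 / b ^ n) := by
                apply mul_le_mul' _ hE'P
                rw [ENNReal.ofReal_pow h0.le]
                apply pow_le_pow_left'
                rw [← ENNReal.ofReal_natCast]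
                apply ENNReal.ofReal_le_ofReal
                linarith [hpar.hbm]
            _ = ENNReal.ofReal 1 := by
                rw [← ENNReal.ofReal_mul (by positivity), mul_one_div, div_self (by positivity)]
      _ = ENNReal.ofReal (b ^ (4 * KK q M) + 1) := by
          rw [← ENNReal.ofReal_add (by positivity) (by norm_num)]
      _ ≤ ENNReal.ofReal (b ^ (10000000 * √(n : ℝ) * (1 + Real.log n) ^ 2)) := by
          apply ENNReal.ofReal_le_ofReal
          have hstep : b ^ (4 * KK q M) + 1 ≤ b ^ (4 * KK q M + 1) := by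
            have h2 : 1 ≤ b ^ (4 * KK q M) := one_le_pow₀ h1
            rw [pow_succ]
            nlinarith
          refine hstep.trans ?_
          rw [← Real.rpow_natCast]
          exact Real.rpow_le_rpow_of_exponent_le h1 (KK_le hn hqr hMr)

end Pool.Agent.Lib.MP_ab1b6f_lcH
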